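import Pool.Agent.Y560.TH.Cst3
import Pool.Agent.W875.TS.MD5

/-!
Project TH: hereditarily decomposable structures, the statements and the definitions of the coding.
-/

set_option autoImplicit false

namespace Pool.Agent.Y560.TH

open Set MeasureTheory
open Pool.Agent.H566P (XG Isom)
open Pool.Agent.Y560.TF (TO)
open Pool.Agent.H533R2.VO (RS)
open Pool.Agent.W875.TS (dm)

/-- Structures on `ℕ`: binary relations `x.1 i`, a function `x.2.1 γ` for every `γ` in `Γ`, and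
unary predicates `x.2.2 i`. -/
abbrev XB (Γ : Type) : Type := (ℕ → ℕ → ℕ → Bool) × (Γ → ℕ → ℕ) × (ℕ → ℕ → Bool)

/-- `X` is a module of the finite structure on `F`. -/
def Modl (r : ℕ → ℕ → ℕ → Bool) (F X : Finset ℕ) : Prop := X ⊆ F ∧
  ∀ u ∈ X, ∀ v ∈ X, ∀ w ∈ F, w ∉ X → ∀ i, r i u w = r i v w ∧ r i w u = r i w v

/-- All finite substructures with at least three elements have a proper module with at least two
elements. -/
def HDr (r : ℕ → ℕ → ℕ → Bool) : Prop :=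
  ∀ F : Finset ℕ, 3 ≤ F.card → ∃ X, Modl r F X ∧ 2 ≤ X.card ∧ X ≠ F

/-- Hereditarily decomposable structures with an action by automorphisms. -/
structure HD {Γ : Type} [Group Γ] (x : XB Γ) : Prop where
  dec : HDr x.1
  one : ∀ m, x.2.1 1 m = m
  mul : ∀ γ δ m, x.2.1 (γ * δ) m = x.2.1 γ (x.2.1 δ m)
  auto : ∀ γ i m n, x.1 i (x.2.1 γ m) (x.2.1 γ n) = x.1 i m n

/-- `σ` is an isomorphism from `x` to `y`. -/
def IsoB {Γ : Type} (σ : Equiv.Perm ℕ) (x y : XB Γ) : Prop :=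
  (∀ i m n, y.1 i (σ m) (σ n) = x.1 i m n) ∧ (∀ γ m, y.2.1 γ (σ m) = σ (x.2.1 γ m)) ∧
    ∀ i m, y.2.2 i (σ m) = x.2.2 i m

/-- The theorem on hereditarily decomposable structures with a group action. -/
def S_TD : Prop := ∀ (Γ : Type) [Group Γ] [Countable Γ] (B : Set (XB Γ)), MeasurableSet B →
  (∀ x ∈ B, HD x) → (∀ x ∈ B, ∀ (y : XB Γ) (σ : Equiv.Perm ℕ), IsoB σ x y → y ∈ B) →
  (∃ f : ℕ → XB Γ, ∀ x ∈ B, ∃ n, ∃ σ : Equiv.Perm ℕ, IsoB σ (f n) x) ∨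
  (∃ c : (ℕ → Bool) → XB Γ, Continuous c ∧ (∀ A, c A ∈ B) ∧
    ∀ A A', (∃ σ : Equiv.Perm ℕ, IsoB σ (c A) (c A')) → A = A')

/-! ### The tree -/

/-- The structure in the language of the library on modules. -/
def bn (r : ℕ → ℕ → ℕ → Bool) : RS (fun _ => 2) := fun i t => r i (t 0) (t 1)

/-- `u`, `v` are together in a cone that does not contain `w`. -/
def cn (r : ℕ → ℕ → ℕ → Bool) (u v w : ℕ) : Prop := dm (bn r) u v w

/-- The pair `(u, w)` is before `(w, u)` in the lexicographic order. -/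
def bf (r : ℕ → ℕ → ℕ → Bool) (u w : ℕ) : Prop :=
  ∃ i, (∀ j, j < i → r j u w = r j w u) ∧ r i u w = false ∧ r i w u = true

/-- The node of `u` and `v`; `{u}` for `v = u`. -/
def Nd (r : ℕ → ℕ → ℕ → Bool) (u v : ℕ) : Set ℕ := {w | ¬ cn r u v w}

/-- The child with `u` of the node of `u` and `v`; `{u}` for `v = u`. -/
def Ch (r : ℕ → ℕ → ℕ → Bool) (u v : ℕ) : Set ℕ := {w | w = u ∨ cn r u w v}

/-- The final segment starting with the child with `u` of the node of `u` and `v` (if the child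
with `v` is before the child with `u`; otherwise `{u}`). -/
def Fs (r : ℕ → ℕ → ℕ → Bool) (u v : ℕ) : Set ℕ :=
  {w | w = u ∨ (bf r v u ∧ ¬ cn r u v w ∧ (cn r u w v ∨ bf r u w))}

/-- The index set. -/
abbrev SS : Type := ℕ × ℕ × Fin 3

/-- The sets. -/
def US (r : ℕ → ℕ → ℕ → Bool) (s : SS) : Set ℕ :=
  if s.2.2 = 0 then Nd r s.1 s.2.1 else if s.2.2 = 1 then Ch r s.1 s.2.1 else Fs r s.1 s.2.1

/-- The facts on the sets. -/
structure TDF (r : ℕ → ℕ → ℕ → Bool) : Prop where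
  lam : ∀ s t w, w ∈ US r s → w ∈ US r t → US r s ⊆ US r t ∨ US r t ⊆ US r s
  col : ∀ u v u' v', u ≠ v → u' ≠ v' → Nd r u v = Nd r u' v' → ¬ bf r v u → ¬ bf r v' u' →
    ∀ i, r i u v = r i u' v' ∧ r i v u = r i v' u'
  node : ∀ a b u v, a ≠ b → u ≠ v → a ∈ Nd r u v → b ∈ Nd r u v → Nd r a b ⊆ Nd r u v
  child : ∀ a b u v, a ≠ b → u ≠ v → a ∈ Ch r u v → b ∉ Ch r u v → Ch r u v ⊆ Ch r a b
  fin1 : ∀ a b, bf r a b → b ∈ Fs r b a ∧ a ∉ Fs r b a ∧ Ch r b a ⊆ Fs r b a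
  fin2 : ∀ a b u v, a ≠ b → bf r v u → b ∈ Fs r u v → a ∉ Fs r u v → Ch r b a ⊆ Fs r u v →
    bf r a b ∧ Fs r b a ⊆ Fs r u v

/-- The combinatorial part. -/
def S_TDA : Prop := ∀ r : ℕ → ℕ → ℕ → Bool, HDr r → TDF r

/-! ### The coding -/

/-- The predicates of the code. -/
def PrS {Γ : Type} (x : XB Γ) (s : SS) : ℕ → Prop
  | 0 => (US x.1 s).Subsingleton
  | 1 => ∃ u v, u ≠ v ∧ US x.1 s = Nd x.1 u v
  | 2 => ∃ u v, u ≠ v ∧ US x.1 s = Ch x.1 u v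
  | 3 => ∃ u v, bf x.1 v u ∧ US x.1 s = Fs x.1 u v
  | n + 4 =>
    (n % 4 = 0 ∧ ∃ u v, u ≠ v ∧ US x.1 s = Nd x.1 u v ∧ ¬ bf x.1 v u ∧ x.1 (n / 4) u v = true) ∨
    (n % 4 = 1 ∧ ∃ u v, u ≠ v ∧ US x.1 s = Nd x.1 u v ∧ ¬ bf x.1 v u ∧ x.1 (n / 4) v u = true) ∨
    (n % 4 = 2 ∧ (US x.1 s).Subsingleton ∧ x.2.2 (n / 4) s.1 = true) ∨
    (n % 4 = 3 ∧ (US x.1 s).Subsingleton ∧ x.1 (n / 4) s.1 s.1 = true)

/-- `y` is the code of `x` via `f`. -/
structure CodT {Γ : Type} (x : XB Γ) (f : SS → ℕ) (y : XG Γ) : Prop where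
  sur : ∀ m, ∃ s, f s = m
  eq : ∀ s t, f s = f t ↔ US x.1 s = US x.1 t
  lt : ∀ s t, y.1 (f s) (f t) = true ↔ US x.1 t ⊂ US x.1 s
  act : ∀ γ u v k, y.2.1 γ (f (u, v, k)) = f (x.2.1 γ u, x.2.1 γ v, k)
  pr : ∀ n s, y.2.2 n (f s) = true ↔ PrS x s n

section dec

variable {Γ : Type} (y : XG Γ)

/-- `a` is below `b` -/
def lec (a b : ℕ) : Prop := a = b ∨ y.1 a b = true

/-- `K` is the node of the leaves `a`, `b` -/
def ndy (a b K : ℕ) : Prop := y.2.2 1 K = true ∧ lec y K a ∧ lec y K b ∧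
  ∀ K', y.2.2 1 K' = true → lec y K' a → lec y K' b → lec y K' K

/-- `V` is the child with `a` of the node of `a`, `b` -/
def chy (a b V : ℕ) : Prop := y.2.2 2 V = true ∧ lec y V a ∧ ¬ lec y V b ∧
  ∀ V', y.2.2 2 V' = true → lec y V' a → ¬ lec y V' b → lec y V V'

/-- `U` is a final segment with `b` and without `a` and contains the child with `b` of the node of
`b`, `a` -/
def fny (a b U : ℕ) : Prop := y.2.2 3 U = true ∧ lec y U b ∧ ¬ lec y U a ∧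
  ∀ V, chy y b a V → lec y U V

/-- The child with `a` is before the child with `b`. -/
def bfy (a b : ℕ) : Prop := ∃ U, fny y a b U

/-- `U` is the final segment starting with the child with `b` of the node of `a`, `b` -/
def fsy (a b U : ℕ) : Prop := fny y a b U ∧ ∀ U', fny y a b U' → lec y U' U

/-- The leaves. -/
noncomputable def enl (a : ℕ) : ℕ := Nat.nth (fun m => y.2.2 0 m = true) a

/-- The graph of the coding map. -/
def fyr (s : SS) (m : ℕ) : Prop :=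
  (s.2.2 = 0 ∧ s.1 = s.2.1 ∧ m = enl y s.1) ∨
  (s.2.2 = 0 ∧ s.1 ≠ s.2.1 ∧ ndy y (enl y s.1) (enl y s.2.1) m) ∨
  (s.2.2 = 1 ∧ s.1 = s.2.1 ∧ m = enl y s.1) ∨
  (s.2.2 = 1 ∧ s.1 ≠ s.2.1 ∧ chy y (enl y s.1) (enl y s.2.1) m) ∨
  (s.2.2 = 2 ∧ ¬ bfy y (enl y s.2.1) (enl y s.1) ∧ m = enl y s.1) ∨
  (s.2.2 = 2 ∧ fsy y (enl y s.2.1) (enl y s.1) m)

/-- The coding map. -/
noncomputable def fy (s : SS) : ℕ := Nat.nth (fun m => fyr y s m) 0

open Classical in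
/-- The decoding map. -/
noncomputable def DT : XB Γ :=
  (fun i m n => decide ((m = n ∧ y.2.2 (4 * i + 7) (enl y m) = true) ∨
    (m ≠ n ∧ ∃ K, ndy y (enl y m) (enl y n) K ∧
      ((bfy y (enl y n) (enl y m) ∧ y.2.2 (4 * i + 5) K = true) ∨
       (¬ bfy y (enl y n) (enl y m) ∧ y.2.2 (4 * i + 4) K = true)))),
   fun γ m => Nat.nth (fun k => enl y k = y.2.1 γ (enl y m)) 0,
   fun i m => y.2.2 (4 * i + 6) (enl y m))

end dec

/-- The coding part. -/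
structure TDB (Γ : Type) [Group Γ] : Prop where
  ex : ∀ x : XB Γ, HD x → ∃ f y, CodT x f y
  semi : ∀ (x : XB Γ) f y, HD x → CodT x f y → TO y
  dec : ∀ (x : XB Γ) f y, HD x → CodT x f y → ∃ θ, IsoB θ (DT y) x ∧ CodT (DT y) (fy y) y
  uni : ∀ (x : XB Γ) f y f' y', CodT x f y → CodT x f' y' → ∃ σ : Equiv.Perm ℕ, Isom σ y y'
  trans : ∀ (x : XB Γ) f y y' (σ : Equiv.Perm ℕ), CodT x f y → Isom σ y y' →
    CodT x (fun s => σ (f s)) y'
  pull : ∀ (x x' : XB Γ) f y (θ : Equiv.Perm ℕ), CodT x f y → IsoB θ x' x →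
    CodT x' (fun s => f (θ s.1, θ s.2.1, s.2.2)) y

/-- The coding part, given the combinatorial part. -/
def S_TDB : Prop := S_TDA → ∀ (Γ : Type) [Group Γ], TDB Γ

/-- The measurability part. -/
def S_TDM : Prop := ∀ (Γ : Type) [Group Γ] [Countable Γ], Measurable (DT : XG Γ → XB Γ) ∧
  MeasurableSet {y : XG Γ | CodT (DT y) (fy y) y}

end Pool.Agent.Y560.TH
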