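import Pool.Agent.Y560.TH.MedC
import Pool.Agent.H70TH.Dec
import Pool.Agent.H565R2.FO2.USec

/-!
Project TH: median trees with a group action. The theorem.
-/

set_option autoImplicit false

namespace Pool.Agent.Y560.TH

open Set MeasureTheory
open Pool.Agent.H566P (XG Isom)
open Pool.Agent.H70TH (k_1 k_2 k_3 bsC analytic_isoC isoC_symm isoC_trans)

variable {Γ : Type}

/-- replace terms by values -/
theorem m_sub {Ω : Type} [MeasurableSpace Ω] (t : Ω → ℕ) (ht : ∀ n, Measurable fun ω => t ω = n)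
    (p : ℕ → Ω → Prop) (hp : ∀ n, Measurable (p n)) : Measurable fun ω => p (t ω) ω := by
  have e : (fun ω => p (t ω) ω) = fun ω => ∃ n, t ω = n ∧ p n ω := by
    funext ω
    exact propext ⟨fun h => ⟨_, rfl, h⟩, fun ⟨n, h1, h2⟩ => h1 ▸ h2⟩
  rw [e]
  exact Measurable.exists fun n => (ht n).and (hp n)

theorem m_q (γ : Γ) (p u v : ℕ) : Measurable fun x : XC Γ => x.1 u v (x.2.1 γ p) = true :=
  m_sub (fun x : XC Γ => x.2.1 γ p) (k_2 γ p) (fun w x => x.1 u v w = true) (fun w => k_1 u v w)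

theorem m_qq (γ δ : Γ) (p v : ℕ) :
    Measurable fun x : XC Γ => x.1 (x.2.1 γ p) v (x.2.1 δ p) = true :=
  m_sub (fun x : XC Γ => x.2.1 γ p) (k_2 γ p) (fun w x => x.1 w v (x.2.1 δ p) = true)
    (fun w => m_q δ p w v)

variable [Countable Γ]

theorem m_T0 (p u : ℕ) : Measurable fun x : XC Γ => T0 x p u :=
  Measurable.exists fun γ => m_q γ p p u

theorem m_gt (p g v : ℕ) : Measurable fun x : XC Γ => gt x p g v :=
  (m_T0 p g).and ((m_T0 p v).not.and ((k_1 p g v).and (Measurable.forall fun t =>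
    (m_T0 p t).imp ((k_1 p t v).imp (k_1 p t g)))))

omit [Countable Γ] in
theorem m_ty (p u : ℕ) (q : Γ × Γ) : Measurable fun x : XC Γ => ty x p u q = true :=
  m_qq q.1 q.2 p u

theorem m_wtp (p u : ℕ) (q : Γ × Γ) : Measurable fun x : XC Γ =>
    ¬ T0 x p u ∧ ∃ m, x.1 p m (x.2.1 q.1 p) = true ∧ x.1 p m (x.2.1 q.2 p) = true ∧
      x.1 (x.2.1 q.1 p) m (x.2.1 q.2 p) = true ∧ x.1 p m u = true :=
  (m_T0 p u).not.and (Measurable.exists fun m => (m_q _ p p m).and ((m_q _ p p m).and
    ((m_qq _ _ p m).and (k_1 p m u))))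

theorem b_of {Ω : Type} [MeasurableSpace Ω] {f : Ω → Bool} (h : Measurable fun ω => f ω = true) :
    Measurable f := measurable_to_bool (measurableSet_setOfPred.2 h)

theorem m_lab (p u : ℕ) : Measurable fun x : XC Γ => lab x p u := by
  refine Measurable.prodMk ?_ ?_
  · exact measurable_pi_iff.2 fun q => b_of (m_ty p u q)
  · refine measurable_pi_iff.2 fun q => b_of ?_
    have e : (fun x : XC Γ => wt x p u q = true) = fun x => ¬ T0 x p u ∧
        ∃ m, x.1 p m (x.2.1 q.1 p) = true ∧ x.1 p m (x.2.1 q.2 p) = true ∧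
          x.1 (x.2.1 q.1 p) m (x.2.1 q.2 p) = true ∧ x.1 p m u = true := by
      classical
      funext x
      exact propext decide_eq_true_iff
    show Measurable fun x : XC Γ => wt x p u q = true
    rw [e]
    exact m_wtp p u q

theorem m_lm (p u v : ℕ) : Measurable fun x : XC Γ => lm x p u v := by
  have hty : ∀ u v : ℕ, Measurable fun x : XC Γ => ty x p u = ty x p v := by
    intro u v
    have e : (fun x : XC Γ => ty x p u = ty x p v) =
        fun x => ∀ q, (ty x p u q = true ↔ ty x p v q = true) := by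
      funext x
      apply propext
      constructor
      · intro h q
        rw [h]
      · intro h
        funext q
        exact Bool.eq_iff_iff.2 (h q)
    rw [e]
    exact Measurable.forall fun q => (m_ty p u q).iff (m_ty p v q)
  refine (Measurable.and (m_T0 p u) ((m_T0 p v).and ((hty u v).and ((k_1 p u v).and
    measurable_const)))).or (Measurable.or ?_ ?_)
  · exact (m_T0 p u).not.and ((m_T0 p v).not.and ((k_1 p u v).and measurable_const))
  · exact (m_T0 p u).and ((m_T0 p v).not.and (Measurable.exists fun g => (m_gt p g v).and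
      (measurable_const.or ((hty u g).and ((k_1 p u g).and measurable_const)))))

theorem m_pm (p : ℕ) (e : ℕ → Lbl Γ) (n u : ℕ) : Measurable fun x : XC Γ => pm x p e n u := by
  have hl : ∀ i, Measurable fun x : XC Γ => lab x p u = e i := fun i =>
    measurableSet_setOfPred.1 (m_lab p u (measurableSet_singleton (e i)))
  exact (measurable_const.and (m_T0 p u)).or (measurable_const.or
    ((Measurable.exists fun i => measurable_const.and (hl i)).or
      (Measurable.exists fun i => measurable_const.and (k_3 i u))))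

theorem m_FM (e : ℕ → Lbl Γ) (p : ℕ) : Measurable (FM e p : XC Γ → XG Γ) := by
  refine Measurable.prodMk ?_ (Measurable.prodMk (measurable_fst.comp measurable_snd) ?_)
  · exact measurable_pi_iff.2 fun a => measurable_pi_iff.2 fun b => m_dec (m_lm p a b)
  · exact measurable_pi_iff.2 fun n => measurable_pi_iff.2 fun a => m_dec (m_pm p e n a)

variable [Group Γ]

omit [Countable Γ] in
theorem m_ltc (e : ℕ → Lbl Γ) (u v : ℕ) : Measurable fun y : XG Γ => ltc e y u v :=
  measurable_const.or ((Measurable.exists fun i => (m_3 _ _).and ((m_3 _ _).and (m_1 _ _))).or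
    (Measurable.exists fun i => Measurable.exists fun j => (m_3 _ _).and ((m_3 _ _).and
      measurable_const)))

omit [Group Γ] [Countable Γ] in
theorem m_gate (g v : ℕ) : Measurable fun y : XG Γ => gate y g v :=
  (m_3 0 g).and ((m_3 0 v).not.and ((m_1 g v).and (Measurable.forall fun t =>
    (m_3 0 t).imp ((m_1 t v).imp (measurable_const.or (m_1 t g))))))

omit [Countable Γ] in
theorem m_leD (e : ℕ → Lbl Γ) (u v : ℕ) : Measurable fun y : XG Γ => leD e y u v := by
  refine ((m_3 0 u).and ((m_3 0 v).and (m_ltc e u v))).or (Measurable.or ?_ ?_)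
  · exact (m_3 0 u).not.and ((m_3 0 v).not.and (measurable_const.or (m_1 u v)))
  · exact (m_3 0 u).and ((m_3 0 v).not.and ((Measurable.exists fun i => Measurable.exists fun j =>
      (m_3 _ _).and ((m_3 _ _).and measurable_const)).or
        (Measurable.exists fun g => (m_gate g v).and (m_ltc e u g))))

omit [Countable Γ] in
theorem m_DM (e : ℕ → Lbl Γ) : Measurable (DM e : XG Γ → XC Γ) := by
  refine Measurable.prodMk ?_ (Measurable.prodMk (measurable_fst.comp measurable_snd) ?_)
  · refine measurable_pi_iff.2 fun a => measurable_pi_iff.2 fun b => measurable_pi_iff.2 fun c =>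
      b_of ?_
    have e1 : (fun y : XG Γ => (DM e y).1 a b c = true) = fun y =>
        (leD e y b a ∨ leD e y b c) ∧ ∀ z, leD e y z a → leD e y z c → leD e y z b := by
      classical
      funext y
      exact propext decide_eq_true_iff
    show Measurable fun y : XG Γ => (DM e y).1 a b c = true
    rw [e1]
    exact ((m_leD e b a).or (m_leD e b c)).and (Measurable.forall fun z =>
        (m_leD e z a).imp ((m_leD e z c).imp (m_leD e z b)))
  · exact measurable_pi_iff.2 fun i => measurable_pi_iff.2 fun u => b_of (m_3 _ _)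

theorem t_MED (hL : S_LOC) : S_MED := by
  intro Γ _ _ B hB hBM hinv
  have b1 : BorelSpace (XC Γ) := bsC
  have b2 : BorelSpace (XG Γ) := bsG
  by_cases hc : (⋃ i : ℕ × ℕ, Set.range fun x : B => lab x.1 i.1 i.2).Countable
  swap
  · right
    have hS : StandardBorelSpace B := hB.standardBorel
    obtain ⟨h, h1, h2⟩ := Pool.Agent.H565R2.FO2.perfect_of_uncountable (Y := B) (X := XC Γ)
      (fun x => x.1) measurable_subtype_coe (fun (i : ℕ × ℕ) (x : B) => lab x.1 i.1 i.2)
      (fun i => (m_lab i.1 i.2).comp measurable_subtype_coe)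
      (fun x y => ∃ σ : Equiv.Perm ℕ, IsoC σ x.1 y.1)
      (by
        rintro ⟨x, hx⟩ ⟨y, hy⟩ ⟨σ, hσ⟩ i
        refine ⟨(σ i.1, σ i.2), ?_⟩
        have e1 : x = relC σ y := isoC_eq hσ
        show lab x i.1 i.2 = lab y (σ i.1) (σ i.2)
        rw [e1, lab_rel]) hc
    refine ⟨fun a => (h a).1, h1, fun a => (h a).2, fun a b hab => ?_⟩
    by_contra hne
    exact h2 a b hne hab
  · -- countably many labels
    obtain ⟨e, he⟩ : ∃ e : ℕ → Lbl Γ, ∀ x ∈ B, ∀ p u, ∃ i, lab x p u = e i := by
      rcases (⋃ i : ℕ × ℕ, Set.range fun x : B => lab x.1 i.1 i.2).eq_empty_or_nonempty with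
        h0 | h0
      · refine ⟨fun _ => (fun _ => false, fun _ => false), fun x hx p u => ?_⟩
        have h1 : lab x p u ∈ (⋃ i : ℕ × ℕ, Set.range fun x : B => lab x.1 i.1 i.2) :=
          mem_iUnion.2 ⟨(p, u), ⟨x, hx⟩, rfl⟩
        rw [h0] at h1
        exact absurd h1 (notMem_empty _)
      · obtain ⟨e, he⟩ := hc.exists_eq_range h0
        refine ⟨e, fun x hx p u => ?_⟩
        have h1 : lab x p u ∈ (⋃ i : ℕ × ℕ, Set.range fun x : B => lab x.1 i.1 i.2) :=
          mem_iUnion.2 ⟨(p, u), ⟨x, hx⟩, rfl⟩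
        rw [he] at h1
        obtain ⟨i, hi⟩ := h1
        exact ⟨i, hi.symm⟩
    let A : Set (XG Γ) := {y | DM e y ∈ B ∧ ∃ p, y = FM e p (DM e y)}
    have hA : MeasurableSet A := by
      have e1 : A = (DM e ⁻¹' B) ∩ ⋃ p, {y | y = FM e p (DM e y)} := by
        ext y
        simp only [A, mem_ofPred_eq, mem_inter_iff, mem_preimage, mem_iUnion]
      rw [e1]
      refine (m_DM e hB).inter (MeasurableSet.iUnion fun v => ?_)
      exact measurableSet_eq_fun measurable_id ((m_FM e v).comp (m_DM e))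
    have hAT : ∀ y ∈ A, LC y := by
      rintro y ⟨h1, p, h2⟩
      rw [h2]
      exact FM_LC (hBM _ h1) (he _ h1 p)
    have hAi : ∀ y ∈ A, ∀ (z : XG Γ) (σ : Equiv.Perm ℕ), Isom σ y z → z ∈ A := by
      rintro y ⟨h1, p, h2⟩ z σ hσ
      have e1 : z = rel σ.symm y := iso_eq (iso_symm hσ)
      have e2 : DM e z = relC σ.symm (DM e y) := by rw [e1, DM_rel]
      refine ⟨?_, σ p, ?_⟩
      · rw [e2]
        exact hinv _ h1 _ _ (isoC_symm (relC_iso σ.symm _))
      · rw [e2, FM_rel, σ.symm_apply_apply, ← h2]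
        exact e1
    have hF : ∀ x ∈ B, ∀ p, FM e p x ∈ A ∧ DM e (FM e p x) = x := by
      intro x hx p
      have e1 := DM_FM (hBM x hx) (he x hx p)
      refine ⟨⟨?_, p, ?_⟩, e1⟩
      · rw [e1]
        exact hx
      · rw [e1]
    refine transfer (EX := fun y z : XG Γ => ∃ σ : Equiv.Perm ℕ, Isom σ y z)
      (EY := fun x z : XC Γ => ∃ σ : Equiv.Perm ℕ, IsoC σ x z)
      (fun y z ⟨σ, h⟩ => ⟨_, iso_symm h⟩) (fun y z w ⟨σ, h⟩ ⟨τ, h'⟩ => ⟨_, iso_trans h h'⟩)
      (fun y z w ⟨σ, h⟩ ⟨τ, h'⟩ => ⟨_, isoC_trans h h'⟩) (DM e) (m_DM e) A B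
      (fun y hy => hy.1) ?_ ?_ ?_ analytic_isoC (hL Γ A hA hAT hAi)
    · intro x hx
      refine ⟨FM e 0 x, (hF x hx 0).1, 1, ?_⟩
      rw [(hF x hx 0).2]
      exact ⟨fun _ _ _ => rfl, fun _ _ => rfl, fun _ _ => rfl⟩
    · rintro y z - ⟨σ, hσ⟩
      refine ⟨σ, ?_⟩
      rw [iso_eq hσ, DM_rel]
      exact relC_iso σ _
    · rintro y ⟨h1, -⟩
      refine ⟨Set.range fun p => FM e p (DM e y), Set.countable_range _, ?_⟩
      rintro z ⟨h3, p, h4⟩ ⟨σ, hσ⟩
      obtain ⟨p', rfl⟩ := σ.surjective p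
      refine ⟨_, ⟨p', rfl⟩, σ, ?_⟩
      have e3 : DM e y = relC σ (DM e z) := isoC_eq hσ
      show Isom σ (FM e p' (DM e y)) z
      rw [e3, FM_rel, ← h4]
      exact rel_iso σ z

end Pool.Agent.Y560.TH
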