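import Pool.Agent.Y560.TH.Gen

/-!
Project TH: circular orders with a group action, the statement.
-/

set_option autoImplicit false

namespace Pool.Agent.Y560.TH

open Set MeasureTheory

/-- Structures on `ℕ`: a ternary relation `x.1`, a function `x.2.1 γ` for every `γ` in `Γ`, and
unary predicates `x.2.2 i`. -/
abbrev XC (Γ : Type) : Type := (ℕ → ℕ → ℕ → Bool) × (Γ → ℕ → ℕ) × (ℕ → ℕ → Bool)

/-- `x.1` is a strict circular order and `x.2.1` is an action of `Γ` by automorphisms of this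
circular order. -/
structure CO {Γ : Type} [Group Γ] (x : XC Γ) : Prop where
  cyc : ∀ a b c, x.1 a b c = true → x.1 b c a = true
  asym : ∀ a b c, x.1 a b c = true → x.1 c b a = false
  tr : ∀ a b c d, x.1 a b c = true → x.1 a c d = true → x.1 a b d = true
  tot : ∀ a b c, a ≠ b → b ≠ c → a ≠ c → x.1 a b c = true ∨ x.1 c b a = true
  one : ∀ m, x.2.1 1 m = m
  mul : ∀ γ δ m, x.2.1 (γ * δ) m = x.2.1 γ (x.2.1 δ m)
  mono : ∀ γ a b c, x.1 a b c = true → x.1 (x.2.1 γ a) (x.2.1 γ b) (x.2.1 γ c) = true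

/-- `σ` is an isomorphism from `x` to `y`. -/
def IsoC {Γ : Type} (σ : Equiv.Perm ℕ) (x y : XC Γ) : Prop :=
  (∀ a b c, y.1 (σ a) (σ b) (σ c) = x.1 a b c) ∧ (∀ γ m, y.2.1 γ (σ m) = σ (x.2.1 γ m)) ∧
    ∀ i m, y.2.2 i (σ m) = x.2.2 i m

/-- The theorem on circular orders with a group action. -/
def S_CIRC : Prop := ∀ (Γ : Type) [Group Γ] [Countable Γ] (B : Set (XC Γ)), MeasurableSet B →
  (∀ x ∈ B, CO x) → (∀ x ∈ B, ∀ (y : XC Γ) (σ : Equiv.Perm ℕ), IsoC σ x y → y ∈ B) →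
  (∃ f : ℕ → XC Γ, ∀ x ∈ B, ∃ n, ∃ σ : Equiv.Perm ℕ, IsoC σ (f n) x) ∨
  (∃ c : (ℕ → Bool) → XC Γ, Continuous c ∧ (∀ A, c A ∈ B) ∧
    ∀ A A', (∃ σ : Equiv.Perm ℕ, IsoC σ (c A) (c A')) → A = A')

end Pool.Agent.Y560.TH
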