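import Pool.Agent.Y560.TH.Cst

/-!
Project TH: linear orders and circular orders with a group action which may reverse the order, the
statements.
-/

set_option autoImplicit false

namespace Pool.Agent.Y560.TH

open Set MeasureTheory
open Pool.Agent.H566P (XG Isom)

/-- `x.1` is a strict linear order and every element of `Γ` preserves or reverses it. -/
structure RV {Γ : Type} [Group Γ] (x : XG Γ) : Prop where
  irr : ∀ m, x.1 m m = false
  tr : ∀ m n k, x.1 m n = true → x.1 n k = true → x.1 m k = true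
  tot : ∀ m n, m ≠ n → x.1 m n = true ∨ x.1 n m = true
  one : ∀ m, x.2.1 1 m = m
  mul : ∀ γ δ m, x.2.1 (γ * δ) m = x.2.1 γ (x.2.1 δ m)
  mono : ∀ γ, (∀ m n, x.1 m n = true → x.1 (x.2.1 γ m) (x.2.1 γ n) = true) ∨
    ∀ m n, x.1 m n = true → x.1 (x.2.1 γ n) (x.2.1 γ m) = true

/-- The theorem on linear orders with a group action by monotone and antitone bijections. -/
def S_REV : Prop := ∀ (Γ : Type) [Group Γ] [Countable Γ] (B : Set (XG Γ)), MeasurableSet B →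
  (∀ x ∈ B, RV x) → (∀ x ∈ B, ∀ (y : XG Γ) (σ : Equiv.Perm ℕ), Isom σ x y → y ∈ B) →
  (∃ f : ℕ → XG Γ, ∀ x ∈ B, ∃ n, ∃ σ : Equiv.Perm ℕ, Isom σ (f n) x) ∨
  (∃ c : (ℕ → Bool) → XG Γ, Continuous c ∧ (∀ A, c A ∈ B) ∧
    ∀ A A', (∃ σ : Equiv.Perm ℕ, Isom σ (c A) (c A')) → A = A')

/-- `x.1` is a strict circular order and every element of `Γ` preserves or reverses it. -/
structure COR {Γ : Type} [Group Γ] (x : XC Γ) : Prop where
  cyc : ∀ a b c, x.1 a b c = true → x.1 b c a = true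
  asym : ∀ a b c, x.1 a b c = true → x.1 c b a = false
  tr : ∀ a b c d, x.1 a b c = true → x.1 a c d = true → x.1 a b d = true
  tot : ∀ a b c, a ≠ b → b ≠ c → a ≠ c → x.1 a b c = true ∨ x.1 c b a = true
  one : ∀ m, x.2.1 1 m = m
  mul : ∀ γ δ m, x.2.1 (γ * δ) m = x.2.1 γ (x.2.1 δ m)
  mono : ∀ γ, (∀ a b c, x.1 a b c = true → x.1 (x.2.1 γ a) (x.2.1 γ b) (x.2.1 γ c) = true) ∨
    ∀ a b c, x.1 a b c = true → x.1 (x.2.1 γ c) (x.2.1 γ b) (x.2.1 γ a) = true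

/-- The theorem on circular orders with a group action which may reverse the orientation. -/
def S_CIRC2 : Prop := ∀ (Γ : Type) [Group Γ] [Countable Γ] (B : Set (XC Γ)), MeasurableSet B →
  (∀ x ∈ B, COR x) → (∀ x ∈ B, ∀ (y : XC Γ) (σ : Equiv.Perm ℕ), IsoC σ x y → y ∈ B) →
  (∃ f : ℕ → XC Γ, ∀ x ∈ B, ∃ n, ∃ σ : Equiv.Perm ℕ, IsoC σ (f n) x) ∨
  (∃ c : (ℕ → Bool) → XC Γ, Continuous c ∧ (∀ A, c A ∈ B) ∧
    ∀ A A', (∃ σ : Equiv.Perm ℕ, IsoC σ (c A) (c A')) → A = A')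

end Pool.Agent.Y560.TH
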