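import Pool.Agent.Y560.TH.Cst2

/-!
Project TH: local chains, median trees, hereditarily decomposable structures: the statements.
-/

set_option autoImplicit false

namespace Pool.Agent.Y560.TH

open Set MeasureTheory
open Pool.Agent.H566P (XG Isom)

/-! ### Local chains -/

/-- `u` is in the core -/
def K0 {Γ : Type} (x : XG Γ) (u : ℕ) : Prop := x.2.2 0 u = true

/-- `u`, `v` are in the same chain of the core -/
def ch {Γ : Type} (x : XG Γ) (u v : ℕ) : Prop :=
  K0 x u ∧ K0 x v ∧ ∀ i, x.2.2 (2 * i + 1) u = x.2.2 (2 * i + 1) v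

/-- `g` is the gate of `v` -/
def gate {Γ : Type} (x : XG Γ) (g v : ℕ) : Prop :=
  K0 x g ∧ ¬ K0 x v ∧ x.1 g v = true ∧ ∀ t, K0 x t → x.1 t v = true → t = g ∨ x.1 t g = true

/-- `x.1` is a semilinear order, the predicate number `0` is a down-closed subset, the core, which
is a disjoint union of chains, each marked by the odd predicates; every element of `Γ` preserves
the core, maps chains of the core to chains, preserving or reversing the order on each chain
separately, and preserves the order outside of the core; an element outside of the core which is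
above an element of the core is above a gate, and the action preserves the gates. -/
structure LC {Γ : Type} [Group Γ] (x : XG Γ) : Prop where
  irr : ∀ m, x.1 m m = false
  tr : ∀ m n k, x.1 m n = true → x.1 n k = true → x.1 m k = true
  sem : ∀ m n k, x.1 m k = true → x.1 n k = true → m = n ∨ x.1 m n = true ∨ x.1 n m = true
  one : ∀ m, x.2.1 1 m = m
  mul : ∀ γ δ m, x.2.1 (γ * δ) m = x.2.1 γ (x.2.1 δ m)
  down : ∀ u v, x.1 u v = true → K0 x v → K0 x u
  chain : ∀ u v, K0 x u → K0 x v → u ≠ v → (ch x u v ↔ x.1 u v = true ∨ x.1 v u = true)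
  core : ∀ γ u, K0 x u → K0 x (x.2.1 γ u)
  chact : ∀ γ u v, ch x u v → ch x (x.2.1 γ u) (x.2.1 γ v)
  mono : ∀ γ u, K0 x u →
    (∀ v w, ch x u v → ch x u w → x.1 v w = true → x.1 (x.2.1 γ v) (x.2.1 γ w) = true) ∨
    (∀ v w, ch x u v → ch x u w → x.1 v w = true → x.1 (x.2.1 γ w) (x.2.1 γ v) = true)
  out : ∀ γ u v, ¬ K0 x u → ¬ K0 x v → x.1 u v = true → x.1 (x.2.1 γ u) (x.2.1 γ v) = true
  gex : ∀ t v, K0 x t → ¬ K0 x v → x.1 t v = true → ∃ g, gate x g v
  gact : ∀ γ g v, gate x g v → gate x (x.2.1 γ g) (x.2.1 γ v)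

/-- The theorem on local chains. -/
def S_LOC : Prop := ∀ (Γ : Type) [Group Γ] [Countable Γ] (B : Set (XG Γ)), MeasurableSet B →
  (∀ x ∈ B, LC x) → (∀ x ∈ B, ∀ (y : XG Γ) (σ : Equiv.Perm ℕ), Isom σ x y → y ∈ B) →
  (∃ f : ℕ → XG Γ, ∀ x ∈ B, ∃ n, ∃ σ : Equiv.Perm ℕ, Isom σ (f n) x) ∨
  (∃ c : (ℕ → Bool) → XG Γ, Continuous c ∧ (∀ A, c A ∈ B) ∧
    ∀ A A', (∃ σ : Equiv.Perm ℕ, Isom σ (c A) (c A')) → A = A')

/-! ### Median trees -/

/-- Median trees: `x.1 a b c` says that the point `b` is on the path from `a` to `c`. -/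
structure MT {Γ : Type} [Group Γ] (x : XC Γ) : Prop where
  left : ∀ a c, x.1 a a c = true
  symm : ∀ a b c, x.1 a b c = true → x.1 c b a = true
  anti : ∀ a b c, x.1 a b c = true → x.1 a c b = true → b = c
  tree : ∀ a b c d, x.1 a d c = true → x.1 a d b = true ∨ x.1 b d c = true
  med : ∀ a b c, ∃ m, x.1 a m b = true ∧ x.1 b m c = true ∧ x.1 a m c = true
  one : ∀ m, x.2.1 1 m = m
  mul : ∀ γ δ m, x.2.1 (γ * δ) m = x.2.1 γ (x.2.1 δ m)
  auto : ∀ γ a b c, x.1 a b c = true → x.1 (x.2.1 γ a) (x.2.1 γ b) (x.2.1 γ c) = true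

/-- The theorem on median trees with a group action. -/
def S_MED : Prop := ∀ (Γ : Type) [Group Γ] [Countable Γ] (B : Set (XC Γ)), MeasurableSet B →
  (∀ x ∈ B, MT x) → (∀ x ∈ B, ∀ (y : XC Γ) (σ : Equiv.Perm ℕ), IsoC σ x y → y ∈ B) →
  (∃ f : ℕ → XC Γ, ∀ x ∈ B, ∃ n, ∃ σ : Equiv.Perm ℕ, IsoC σ (f n) x) ∨
  (∃ c : (ℕ → Bool) → XC Γ, Continuous c ∧ (∀ A, c A ∈ B) ∧
    ∀ A A', (∃ σ : Equiv.Perm ℕ, IsoC σ (c A) (c A')) → A = A')

end Pool.Agent.Y560.TH
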