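import Pool.Agent.Y560.TH.TDd
import Pool.Agent.W889.FO.Cpl
import Mathlib.GroupTheory.FreeGroup.Basic

/-!
Project TH: from classes of coded structures with a group action to first-order theories in
relational languages with symbols of arity at most two, some of which name automorphisms.
-/

set_option autoImplicit false

namespace Pool.Agent.Y560.TH.FO

open FirstOrder FirstOrder.Language Set MeasureTheory
open Pool.Agent.W889.VC (BP)
open Pool.Agent.W889.FO

variable {L : FirstOrder.Language.{0, 0}} [L.IsRelational]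

/-- The relation with a given symbol in the structure with the code `x`. -/
def rl (A : Set (L.Relations 2)) (e : (Σ n, L.Relations n) → ℕ) (x : XB (FreeGroup A)) :
    (n : ℕ) → L.Relations n → (Fin n → ℕ) → Prop
  | 0, R, _ => ∃ m, x.2.2 (e ⟨0, R⟩) m = true
  | 1, R, t => x.2.2 (e ⟨1, R⟩) (t 0) = true
  | 2, R, t => (∃ h : R ∈ A, x.2.1 (FreeGroup.of ⟨R, h⟩) (t 0) = t 1) ∨
      (R ∉ A ∧ x.1 (e ⟨2, R⟩) (t 0) (t 1) = true)
  | _ + 3, _, _ => False

/-- The structure with the code `x`. -/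
@[reducible] def st (A : Set (L.Relations 2)) (e : (Σ n, L.Relations n) → ℕ) (x : XB (FreeGroup A)) :
    L.Structure ℕ where
  funMap f := isEmptyElim f
  RelMap {n} R t := rl A e x n R t

/-- The normal codes. -/
structure Nz (A : Set (L.Relations 2)) (e : (Σ n, L.Relations n) → ℕ) (x : XB (FreeGroup A)) :
    Prop where
  bin : ∀ i, (¬ ∃ R, R ∉ A ∧ e ⟨2, R⟩ = i) → ∀ m n, x.1 i m n = false
  una : ∀ i, (¬ ((∃ R, e ⟨1, R⟩ = i) ∨ ∃ R, e ⟨0, R⟩ = i)) → ∀ m, x.2.2 i m = false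
  nul : ∀ (R : L.Relations 0) (m m' : ℕ), x.2.2 (e ⟨0, R⟩) m = x.2.2 (e ⟨0, R⟩) m'
  one : ∀ m, x.2.1 1 m = m
  mul : ∀ γ δ m, x.2.1 (γ * δ) m = x.2.1 γ (x.2.1 δ m)

/-- The codes of the models. -/
def BT (A : Set (L.Relations 2)) (e : (Σ n, L.Relations n) → ℕ) (T : L.Theory) :
    Set (XB (FreeGroup A)) :=
  {x | Nz A e x ∧ @Theory.Model L ℕ (st A e x) T}

section meas

variable {Γ : Type}

theorem m1 (i m n : ℕ) : Measurable fun x : XB Γ => x.1 i m n :=
  (measurable_pi_apply n).comp ((measurable_pi_apply m).comp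
    ((measurable_pi_apply i).comp measurable_fst))

theorem m2 (γ : Γ) (m : ℕ) : Measurable fun x : XB Γ => x.2.1 γ m :=
  (measurable_pi_apply m).comp ((measurable_pi_apply γ).comp
    (measurable_fst.comp measurable_snd))

theorem m3 (i m : ℕ) : Measurable fun x : XB Γ => x.2.2 i m :=
  (measurable_pi_apply m).comp ((measurable_pi_apply i).comp
    (measurable_snd.comp measurable_snd))

theorem c1 (i m n : ℕ) : Continuous fun x : XB Γ => x.1 i m n :=
  (continuous_apply n).comp ((continuous_apply m).comp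
    ((continuous_apply i).comp continuous_fst))

theorem c2 (γ : Γ) (m : ℕ) : Continuous fun x : XB Γ => x.2.1 γ m :=
  (continuous_apply m).comp ((continuous_apply γ).comp
    (continuous_fst.comp continuous_snd))

theorem c3 (i m : ℕ) : Continuous fun x : XB Γ => x.2.2 i m :=
  (continuous_apply m).comp ((continuous_apply i).comp
    (continuous_snd.comp continuous_snd))

theorem b1 (i m n : ℕ) (c : Bool) : BP fun x : XB Γ => x.1 i m n = c :=
  (m1 i m n) (measurableSet_singleton c)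

theorem b2 (γ : Γ) (m k : ℕ) : BP fun x : XB Γ => x.2.1 γ m = k :=
  (m2 γ m) (measurableSet_singleton k)

theorem b3 (i m : ℕ) (c : Bool) : BP fun x : XB Γ => x.2.2 i m = c :=
  (m3 i m) (measurableSet_singleton c)

end meas

theorem bp_rl (A : Set (L.Relations 2)) (e : (Σ n, L.Relations n) → ℕ) (n : ℕ)
    (R : L.Relations n) (t : Fin n → ℕ) :
    BP fun x : XB (FreeGroup A) => rl A e x n R t := by
  match n, R, t with
  | 0, R, _ => exact BP.ex fun m => b3 _ _ _
  | 1, R, t => exact b3 _ _ _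
  | 2, R, t =>
    refine BP.or ?_ ((BP.const _).and (b1 _ _ _ _))
    by_cases h : R ∈ A
    · exact (b2 (FreeGroup.of ⟨R, h⟩) (t 0) (t 1)).congr fun x =>
        ⟨fun h1 => ⟨h, h1⟩, fun h1 => h1.2⟩
    · exact (BP.const False).congr fun x => ⟨fun h1 => h1.elim, fun h1 => h h1.1⟩
  | n + 3, R, t => exact BP.const False

theorem bp_nz [Countable (Σ n, L.Relations n)] (A : Set (L.Relations 2))
    (e : (Σ n, L.Relations n) → ℕ) : BP fun x : XB (FreeGroup A) => Nz A e x := by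
  have hc : ∀ n, Countable (L.Relations n) := fun n =>
    (sigma_mk_injective (β := L.Relations) (i := n)).countable
  have hA : Countable A := Subtype.countable
  have hG : Countable (FreeGroup A) := inferInstance
  have h1 : BP fun x : XB (FreeGroup A) =>
      ∀ i, (¬ ∃ R, R ∉ A ∧ e ⟨2, R⟩ = i) → ∀ m n, x.1 i m n = false :=
    BP.all fun i => (BP.const _).imp (BP.all fun m => BP.all fun n => b1 _ _ _ _)
  have h2 : BP fun x : XB (FreeGroup A) =>
      ∀ i, (¬ ((∃ R, e ⟨1, R⟩ = i) ∨ ∃ R, e ⟨0, R⟩ = i)) → ∀ m, x.2.2 i m = false :=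
    BP.all fun i => (BP.const _).imp (BP.all fun m => b3 _ _ _)
  have h3 : BP fun x : XB (FreeGroup A) =>
      ∀ (R : L.Relations 0) (m m' : ℕ), x.2.2 (e ⟨0, R⟩) m = x.2.2 (e ⟨0, R⟩) m' :=
    BP.all fun R => BP.all fun m => BP.all fun m' =>
      measurableSet_eq_fun (m3 _ _) (m3 _ _)
  have h4 : BP fun x : XB (FreeGroup A) => ∀ m, x.2.1 1 m = m := BP.all fun m => b2 _ _ _
  have h5 : BP fun x : XB (FreeGroup A) =>
      ∀ γ δ m, x.2.1 (γ * δ) m = x.2.1 γ (x.2.1 δ m) := by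
    refine BP.all fun γ => BP.all fun δ => BP.all fun m => ?_
    have : BP fun x : XB (FreeGroup A) =>
        ∀ k, x.2.1 δ m = k → x.2.1 (γ * δ) m = x.2.1 γ k :=
      BP.all fun k => (b2 _ _ _).imp (measurableSet_eq_fun (m2 _ _) (m2 _ _))
    exact this.congr fun x => ⟨fun h => h _ rfl, fun h k hk => by rw [h, hk]⟩
  exact (h1.and (h2.and (h3.and (h4.and h5)))).congr fun x =>
    ⟨fun h => ⟨h.1, h.2.1, h.2.2.1, h.2.2.2.1, h.2.2.2.2⟩,
      fun h => ⟨h.bin, h.una, h.nul, h.one, h.mul⟩⟩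

theorem bt_meas [Countable (Σ n, L.Relations n)] (A : Set (L.Relations 2))
    (e : (Σ n, L.Relations n) → ℕ) (T : L.Theory) : MeasurableSet (BT A e T) := by
  have hsc : Countable L.Sentence := countable_sentence
  have hT : Countable T := Subtype.countable
  have h1 : BP fun x : XB (FreeGroup A) =>
      Nz A e x ∧ ∀ φ : T, @Sentence.Realize L ℕ (st A e x) φ.1 :=
    (bp_nz A e).and (BP.all fun φ => bp_sentence (fun n R t => bp_rl A e n R t) φ.1)
  refine (congrArg MeasurableSet (Set.ext fun x => ?_)).mp h1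
  exact ⟨fun h => ⟨h.1, ax_iff.2 fun φ hφ => h.2 ⟨φ, hφ⟩⟩,
    fun h => ⟨h.1, fun φ => ax_iff.1 h.2 φ.1 φ.2⟩⟩

/-- An isomorphism of codes is an isomorphism of structures. -/
theorem iso1 {A : Set (L.Relations 2)} {e : (Σ n, L.Relations n) → ℕ} {x y : XB (FreeGroup A)}
    {σ : Equiv.Perm ℕ} (h : IsoB σ x y) : SIso (st A e x) (st A e y) := by
  obtain ⟨h1, h2, h3⟩ := h
  obtain ⟨f, -⟩ := siso_of (S := st A e x) (S' := st A e y) σ (by
    intro n R v
    show rl A e y n R _ ↔ rl A e x n R v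
    match n, R, v with
    | 0, R, v =>
      constructor
      · rintro ⟨m, hm⟩
        refine ⟨σ.symm m, ?_⟩
        rw [← h3, Equiv.apply_symm_apply]
        exact hm
      · rintro ⟨m, hm⟩
        exact ⟨σ m, by rw [h3]; exact hm⟩
    | 1, R, v =>
      show y.2.2 _ (σ (v 0)) = true ↔ x.2.2 _ (v 0) = true
      rw [h3]
    | 2, R, v =>
      show ((∃ h : R ∈ A, y.2.1 (FreeGroup.of ⟨R, h⟩) (σ (v 0)) = σ (v 1)) ∨
        (R ∉ A ∧ y.1 _ (σ (v 0)) (σ (v 1)) = true)) ↔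
        ((∃ h : R ∈ A, x.2.1 (FreeGroup.of ⟨R, h⟩) (v 0) = v 1) ∨
        (R ∉ A ∧ x.1 _ (v 0) (v 1) = true))
      simp only [h1, h2, EmbeddingLike.apply_eq_iff_eq]
    | n + 3, R, v => exact Iff.rfl)
  exact ⟨f⟩

theorem act_inv {Γ : Type} [Group Γ] {x : XB Γ} (h1 : ∀ m, x.2.1 1 m = m)
    (h2 : ∀ γ δ m, x.2.1 (γ * δ) m = x.2.1 γ (x.2.1 δ m)) (γ : Γ) (m : ℕ) :
    x.2.1 γ (x.2.1 γ⁻¹ m) = m ∧ x.2.1 γ⁻¹ (x.2.1 γ m) = m := by
  constructor
  · rw [← h2, mul_inv_cancel, h1]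
  · rw [← h2, inv_mul_cancel, h1]

/-- An isomorphism of the structures is an isomorphism of the codes, if they are normal. -/
theorem iso2 {A : Set (L.Relations 2)} {e : (Σ n, L.Relations n) → ℕ} {x y : XB (FreeGroup A)}
    (hx : Nz A e x) (hy : Nz A e y) (h : SIso (st A e x) (st A e y)) :
    ∃ σ : Equiv.Perm ℕ, IsoB σ x y := by
  obtain ⟨f⟩ := h
  have hf : ∀ (n : ℕ) (R : L.Relations n) (v : Fin n → ℕ),
      rl A e y n R (fun i => f (v i)) ↔ rl A e x n R v := fun n R v => iso_rel f R v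
  have hb : ∀ (R : L.Relations 2) (m n : ℕ),
      ((∃ h : R ∈ A, y.2.1 (FreeGroup.of ⟨R, h⟩) (f m) = f n) ∨
        (R ∉ A ∧ y.1 (e ⟨2, R⟩) (f m) (f n) = true)) ↔
      ((∃ h : R ∈ A, x.2.1 (FreeGroup.of ⟨R, h⟩) m = n) ∨
        (R ∉ A ∧ x.1 (e ⟨2, R⟩) m n = true)) := fun R m n => hf 2 R ![m, n]
  have hu : ∀ (R : L.Relations 1) (m : ℕ),
      y.2.2 (e ⟨1, R⟩) (f m) = true ↔ x.2.2 (e ⟨1, R⟩) m = true := fun R m => hf 1 R ![m]
  have hz : ∀ R : L.Relations 0, (∃ m, y.2.2 (e ⟨0, R⟩) m = true) ↔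
      (∃ m, x.2.2 (e ⟨0, R⟩) m = true) := fun R => hf 0 R ![]
  let σ : Equiv.Perm ℕ := @FirstOrder.Language.Equiv.toEquiv L ℕ ℕ (st A e x) (st A e y) f
  have hσ : ∀ m, σ m = f m := fun m => rfl
  refine ⟨σ, ?_, ?_, ?_⟩
  · intro i m n
    rw [hσ, hσ]
    by_cases hi : ∃ R, R ∉ A ∧ e ⟨2, R⟩ = i
    · obtain ⟨R, hR, rfl⟩ := hi
      have := hb R m n
      simp only [hR, IsEmpty.exists_iff, false_or, not_false_eq_true, true_and] at this
      rw [Bool.eq_iff_iff]
      exact this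
    · rw [hx.bin i hi, hy.bin i hi]
  · have key : ∀ (γ : FreeGroup A), ∀ m, y.2.1 γ (σ m) = σ (x.2.1 γ m) := by
      intro γ
      induction γ using FreeGroup.induction_on with
      | C1 => intro m; rw [hx.one, hy.one]
      | of R =>
        intro m
        have := hb R.1 m (x.2.1 (FreeGroup.of R) m)
        have h2 : (∃ h : R.1 ∈ A, y.2.1 (FreeGroup.of ⟨R.1, h⟩) (f m) =
            f (x.2.1 (FreeGroup.of R) m)) ∨ _ := this.2 (Or.inl ⟨R.2, rfl⟩)
        rcases h2 with ⟨h, h2⟩ | ⟨h, -⟩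
        · exact h2
        · exact absurd R.2 h
      | inv_of R ih =>
        intro m
        have h1 := ih (x.2.1 (FreeGroup.of R)⁻¹ m)
        rw [(act_inv hx.one hx.mul _ _).1] at h1
        rw [← h1, (act_inv hy.one hy.mul _ _).2]
      | mul γ δ h1 h2 =>
        intro m
        rw [hy.mul, hx.mul, h2, h1]
    exact key
  · intro i m
    rw [hσ]
    by_cases hi : (∃ R, e ⟨1, R⟩ = i) ∨ ∃ R, e ⟨0, R⟩ = i
    · rcases hi with ⟨R, rfl⟩ | ⟨R, rfl⟩
      · rw [Bool.eq_iff_iff]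
        exact hu R m
      · rw [Bool.eq_iff_iff]
        have h1 : y.2.2 (e ⟨0, R⟩) (f m) = true ↔ ∃ k, y.2.2 (e ⟨0, R⟩) k = true :=
          ⟨fun h => ⟨_, h⟩, fun ⟨k, hk⟩ => by rw [hy.nul R _ k]; exact hk⟩
        have h2 : x.2.2 (e ⟨0, R⟩) m = true ↔ ∃ k, x.2.2 (e ⟨0, R⟩) k = true :=
          ⟨fun h => ⟨_, h⟩, fun ⟨k, hk⟩ => by rw [hx.nul R _ k]; exact hk⟩
        rw [h1, h2]
        exact hz R
    · rw [hx.una i hi, hy.una i hi]

theorem nz_iso {A : Set (L.Relations 2)} {e : (Σ n, L.Relations n) → ℕ} {x y : XB (FreeGroup A)}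
    {σ : Equiv.Perm ℕ} (h : IsoB σ x y) (hx : Nz A e x) : Nz A e y := by
  obtain ⟨h1, h2, h3⟩ := h
  have e1 : ∀ i m n, y.1 i m n = x.1 i (σ.symm m) (σ.symm n) := fun i m n => by
    rw [← h1, Equiv.apply_symm_apply, Equiv.apply_symm_apply]
  have e2 : ∀ γ m, y.2.1 γ m = σ (x.2.1 γ (σ.symm m)) := fun γ m => by
    rw [← h2, Equiv.apply_symm_apply]
  have e3 : ∀ i m, y.2.2 i m = x.2.2 i (σ.symm m) := fun i m => by
    rw [← h3, Equiv.apply_symm_apply]
  refine ⟨?_, ?_, ?_, ?_, ?_⟩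
  · intro i hi m n
    rw [e1, hx.bin i hi]
  · intro i hi m
    rw [e3, hx.una i hi]
  · intro R m m'
    rw [e3, e3, hx.nul R _ (σ.symm m')]
  · intro m
    rw [e2, hx.one, Equiv.apply_symm_apply]
  · intro γ δ m
    rw [e2, e2, e2, Equiv.symm_apply_apply, hx.mul]

theorem bt_inv (A : Set (L.Relations 2)) (e : (Σ n, L.Relations n) → ℕ) (T : L.Theory) :
    ∀ x ∈ BT A e T, ∀ (y : XB (FreeGroup A)) (σ : Equiv.Perm ℕ), IsoB σ x y → y ∈ BT A e T :=
  fun _ hx _ _ h => ⟨nz_iso h hx.1, (iso1 h).model hx.2⟩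

/-- The relations in `A` are graphs of permutations. -/
def Grf (A : Set (L.Relations 2)) (S : L.Structure ℕ) : Prop :=
  ∀ R ∈ A, ∃ π : Equiv.Perm ℕ, ∀ t : Fin 2 → ℕ,
    @Structure.RelMap L ℕ S 2 R t ↔ π (t 0) = t 1

/-- Every structure has a code. -/
theorem exists_code (A : Set (L.Relations 2)) (e : (Σ n, L.Relations n) → ℕ)
    (he : Function.Injective e) (har : ∀ n, L.Relations n → n ≤ 2) (S : L.Structure ℕ)
    (hS : Grf A S) : ∃ x : XB (FreeGroup A), Nz A e x ∧ SIso S (st A e x) := by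
  classical
  choose π hπ using hS
  let ac : FreeGroup A →* Equiv.Perm ℕ := FreeGroup.lift fun R : A => π R.1 R.2
  let x : XB (FreeGroup A) :=
    (fun i m n => decide (∃ R, R ∉ A ∧ e ⟨2, R⟩ = i ∧ @Structure.RelMap L ℕ S 2 R ![m, n]),
     fun γ m => ac γ m,
     fun i m => decide ((∃ R, e ⟨1, R⟩ = i ∧ @Structure.RelMap L ℕ S 1 R ![m]) ∨
      ∃ R, e ⟨0, R⟩ = i ∧ @Structure.RelMap L ℕ S 0 R ![]))
  have hx1 : ∀ i m n, x.1 i m n = true ↔
      ∃ R, R ∉ A ∧ e ⟨2, R⟩ = i ∧ @Structure.RelMap L ℕ S 2 R ![m, n] :=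
    fun i m n => decide_eq_true_iff
  have hx3 : ∀ i m, x.2.2 i m = true ↔ ((∃ R, e ⟨1, R⟩ = i ∧ @Structure.RelMap L ℕ S 1 R ![m]) ∨
      ∃ R, e ⟨0, R⟩ = i ∧ @Structure.RelMap L ℕ S 0 R ![]) :=
    fun i m => decide_eq_true_iff
  have hx2 : ∀ γ m, x.2.1 γ m = ac γ m := fun _ _ => rfl
  have hinj : ∀ n (R R' : L.Relations n), e ⟨n, R⟩ = e ⟨n, R'⟩ → R = R' := fun n R R' h => by
    have := he h
    simpa using this
  refine ⟨x, ⟨?_, ?_, ?_, ?_, ?_⟩, ?_⟩
  · intro i hi m n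
    rw [Bool.eq_false_iff, Ne, hx1]
    rintro ⟨R, hR, h, -⟩
    exact hi ⟨R, hR, h⟩
  · intro i hi m
    rw [Bool.eq_false_iff, Ne, hx3]
    rintro (⟨R, h, -⟩ | ⟨R, h, -⟩)
    · exact hi (Or.inl ⟨R, h⟩)
    · exact hi (Or.inr ⟨R, h⟩)
  · intro R m m'
    have h1 : ∀ m, x.2.2 (e ⟨0, R⟩) m = true ↔ @Structure.RelMap L ℕ S 0 R ![] := by
      intro m
      rw [hx3]
      constructor
      · rintro (⟨R', h, -⟩ | ⟨R', h, h'⟩)
        · have : (1 : ℕ) = 0 := congrArg Sigma.fst (he h)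
          exact absurd this (by decide)
        · rw [← hinj 0 _ _ h]
          exact h'
      · intro h
        exact Or.inr ⟨R, rfl, h⟩
    rw [Bool.eq_iff_iff, h1, h1]
  · intro m
    rw [hx2, map_one]
    rfl
  · intro γ δ m
    rw [hx2, hx2, hx2, map_mul]
    rfl
  · obtain ⟨f, -⟩ := siso_of (S := S) (S' := st A e x) (Equiv.refl ℕ) (by
      intro n R v
      show rl A e x n R v ↔ @Structure.RelMap L ℕ S n R v
      match n, R, v with
      | 0, R, v =>
        have hv : v = ![] := Subsingleton.elim _ _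
        rw [hv]
        show (∃ m, x.2.2 (e ⟨0, R⟩) m = true) ↔ _
        simp only [hx3]
        constructor
        · rintro ⟨m, ⟨R', h, -⟩ | ⟨R', h, h'⟩⟩
          · have : (1 : ℕ) = 0 := congrArg Sigma.fst (he h)
            exact absurd this (by decide)
          · rw [← hinj 0 _ _ h]
            exact h'
        · intro h
          exact ⟨0, Or.inr ⟨R, rfl, h⟩⟩
      | 1, R, v =>
        have hv : v = ![v 0] := by
          funext i
          rw [Subsingleton.elim i 0]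
          rfl
        rw [hv]
        show x.2.2 (e ⟨1, R⟩) (v 0) = true ↔ _
        rw [hx3]
        constructor
        · rintro (⟨R', h, h'⟩ | ⟨R', h, -⟩)
          · rw [← hinj 1 _ _ h]
            exact h'
          · have : (0 : ℕ) = 1 := congrArg Sigma.fst (he h)
            exact absurd this (by decide)
        · intro h
          exact Or.inl ⟨R, rfl, h⟩
      | 2, R, v =>
        have hv : v = ![v 0, v 1] := by
          funext i
          fin_cases i
          · rfl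
          · rfl
        show (∃ h : R ∈ A, x.2.1 (FreeGroup.of ⟨R, h⟩) (v 0) = v 1) ∨
          (R ∉ A ∧ x.1 (e ⟨2, R⟩) (v 0) (v 1) = true) ↔ _
        by_cases hR : R ∈ A
        · rw [hπ R hR v]
          have h1 : ∀ h : R ∈ A, x.2.1 (FreeGroup.of ⟨R, h⟩) (v 0) = π R hR (v 0) := by
            intro h
            rw [hx2, FreeGroup.lift_apply_of]
          constructor
          · rintro (⟨h, h2⟩ | ⟨h, -⟩)
            · rw [← h1 h]
              exact h2
            · exact absurd hR h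
          · intro h
            exact Or.inl ⟨hR, by rw [h1]; exact h⟩
        · constructor
          · rintro (⟨h, -⟩ | ⟨-, h⟩)
            · exact absurd h hR
            · rw [hx1] at h
              obtain ⟨R', -, h, h'⟩ := h
              rw [hv, ← hinj 2 _ _ h]
              exact h'
          · intro h
            refine Or.inr ⟨hR, ?_⟩
            rw [hx1]
            rw [hv] at h
            exact ⟨R, hR, rfl, h⟩
      | n + 3, R, v => exact absurd (har _ R) (by omega))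
    exact ⟨f⟩

/-- From codes to theories. -/
theorem fo_of [Countable (Σ n, L.Relations n)] (A : Set (L.Relations 2))
    (har : ∀ n, L.Relations n → n ≤ 2) (T : L.Theory)
    (hT : ∀ S : L.Structure ℕ, @Theory.Model L ℕ S T → Grf A S)
    (H : ∀ e : (Σ n, L.Relations n) → ℕ, Function.Injective e →
      (∃ f : ℕ → XB (FreeGroup A), ∀ x ∈ BT A e T, ∃ n, ∃ σ : Equiv.Perm ℕ, IsoB σ (f n) x) ∨
      (∃ c : (ℕ → Bool) → XB (FreeGroup A), Continuous c ∧ (∀ a, c a ∈ BT A e T) ∧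
        ∀ a a', (∃ σ : Equiv.Perm ℕ, IsoB σ (c a) (c a')) → a = a')) : Vaught L T := by
  obtain ⟨e, he⟩ := Countable.exists_injective_nat (Σ n, L.Relations n)
  rcases H e he with ⟨f, hf⟩ | ⟨c, hc, hcB, hci⟩
  · left
    refine ⟨fun n => st A e (f n), fun S hS => ?_⟩
    obtain ⟨x, hx, hSx⟩ := exists_code A e he har S (hT S hS)
    obtain ⟨n, σ, hσ⟩ := hf x ⟨hx, hSx.model hS⟩
    exact ⟨n, hSx.trans (iso1 hσ).symm⟩
  · right
    refine ⟨fun a => st A e (c a), fun a => (hcB a).2, fun a b hab =>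
      hci a b (iso2 (hcB a).1 (hcB b).1 hab), fun n R v => ?_⟩
    show IsClopen {a | rl A e (c a) n R v}
    match n, R, v with
    | 0, R, v =>
      have h6 : {a : ℕ → Bool | rl A e (c a) 0 R v} =
          (fun a => (c a).2.2 (e ⟨0, R⟩) 0) ⁻¹' {true} := by
        ext a
        show (∃ m, (c a).2.2 (e ⟨0, R⟩) m = true) ↔ (c a).2.2 (e ⟨0, R⟩) 0 = true
        exact ⟨fun ⟨m, hm⟩ => by rw [(hcB a).1.nul R 0 m]; exact hm, fun h => ⟨0, h⟩⟩
      rw [h6]
      exact (isClopen_discrete {true}).preimage ((c3 _ _).comp hc)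
    | 1, R, v =>
      exact (isClopen_discrete {true}).preimage ((c3 (e ⟨1, R⟩) (v 0)).comp hc)
    | 2, R, v =>
      by_cases hR : R ∈ A
      · have h6 : {a : ℕ → Bool | rl A e (c a) 2 R v} =
            (fun a => (c a).2.1 (FreeGroup.of ⟨R, hR⟩) (v 0)) ⁻¹' {v 1} := by
          ext a
          show ((∃ h : R ∈ A, (c a).2.1 (FreeGroup.of ⟨R, h⟩) (v 0) = v 1) ∨
            (R ∉ A ∧ (c a).1 (e ⟨2, R⟩) (v 0) (v 1) = true)) ↔
            (c a).2.1 (FreeGroup.of ⟨R, hR⟩) (v 0) = v 1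
          exact ⟨fun h => h.elim (fun h => h.2) fun h => absurd hR h.1,
            fun h => Or.inl ⟨hR, h⟩⟩
        rw [h6]
        exact (isClopen_discrete {v 1}).preimage ((c2 _ _).comp hc)
      · have h6 : {a : ℕ → Bool | rl A e (c a) 2 R v} =
            (fun a => (c a).1 (e ⟨2, R⟩) (v 0) (v 1)) ⁻¹' {true} := by
          ext a
          show ((∃ h : R ∈ A, (c a).2.1 (FreeGroup.of ⟨R, h⟩) (v 0) = v 1) ∨
            (R ∉ A ∧ (c a).1 (e ⟨2, R⟩) (v 0) (v 1) = true)) ↔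
            (c a).1 (e ⟨2, R⟩) (v 0) (v 1) = true
          exact ⟨fun h => h.elim (fun h => absurd h.1 hR) fun h => h.2,
            fun h => Or.inr ⟨hR, h⟩⟩
        rw [h6]
        exact (isClopen_discrete {true}).preimage ((c1 _ _ _).comp hc)
    | n + 3, R, v => exact absurd (har _ R) (by omega)

/-- Preservation under the generators gives preservation under the group. -/
theorem auto_of {A : Set (L.Relations 2)} {e : (Σ n, L.Relations n) → ℕ}
    {x : XB (FreeGroup A)} (hx : Nz A e x) (i : ℕ)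
    (h : ∀ R m n, x.1 i (x.2.1 (FreeGroup.of R) m) (x.2.1 (FreeGroup.of R) n) = x.1 i m n) :
    ∀ γ m n, x.1 i (x.2.1 γ m) (x.2.1 γ n) = x.1 i m n := by
  intro γ
  induction γ using FreeGroup.induction_on with
  | C1 => intro m n; rw [hx.one, hx.one]
  | of R => exact h R
  | inv_of R ih =>
    intro m n
    have h1 := ih (x.2.1 (FreeGroup.of R)⁻¹ m) (x.2.1 (FreeGroup.of R)⁻¹ n)
    rw [(act_inv hx.one hx.mul _ _).1, (act_inv hx.one hx.mul _ _).1] at h1
    exact h1.symm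
  | mul γ δ h1 h2 =>
    intro m n
    rw [hx.mul, hx.mul, h1, h2]

end Pool.Agent.Y560.TH.FO
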