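import Pool.Agent.Y560.TF.FIN
import Pool.Agent.H702R3.TV.Core
import Pool.Agent.H31R3.AL.Transfer

/-!
Project TH: consequences of the theorem on semilinear orders with a group action. The general
transfer lemma.
-/

set_option autoImplicit false

namespace Pool.Agent.Y560.TH

open Set MeasureTheory
open Pool.Agent.H566P (XG Isom)
open Pool.Agent.Y560.TF (TO)

/-- the theorem on semilinear orders with a group action -/
def S_OUTT : Prop := ∀ (Γ : Type) [Group Γ] [Countable Γ] (B : Set (XG Γ)), MeasurableSet B →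
  (∀ x ∈ B, TO x) → (∀ x ∈ B, ∀ (y : XG Γ) (σ : Equiv.Perm ℕ), Isom σ x y → y ∈ B) →
  (∃ f : ℕ → XG Γ, ∀ x ∈ B, ∃ n, ∃ σ : Equiv.Perm ℕ, Isom σ (f n) x) ∨
  (∃ c : (ℕ → Bool) → XG Γ, Continuous c ∧ (∀ A, c A ∈ B) ∧
    ∀ A A', (∃ σ : Equiv.Perm ℕ, Isom σ (c A) (c A')) → A = A')

/-- The transfer lemma: `ρ` maps `A` to `B`, meets all classes of `B`, is invariant, and has
countably many classes over each class. -/
theorem transfer {X Y : Type} [TopologicalSpace X] [MeasurableSpace X] [BorelSpace X]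
    [TopologicalSpace Y] [SecondCountableTopology Y] [MeasurableSpace Y] [BorelSpace Y]
    {EX : X → X → Prop} {EY : Y → Y → Prop}
    (hXs : ∀ x y, EX x y → EX y x) (hXt : ∀ x y z, EX x y → EX y z → EX x z)
    (hYt : ∀ x y z, EY x y → EY y z → EY x z)
    (ρ : X → Y) (hρ : Measurable ρ) (A : Set X) (B : Set Y)
    (hAB : ∀ x ∈ A, ρ x ∈ B) (hsur : ∀ y ∈ B, ∃ x ∈ A, EY (ρ x) y)
    (hinv : ∀ x x', x' ∈ A → EX x x' → EY (ρ x) (ρ x'))
    (hcount : ∀ x ∈ A, ∃ C : Set X, C.Countable ∧ ∀ x' ∈ A, EY (ρ x) (ρ x') → ∃ c ∈ C, EX c x')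
    (han : ∀ u : (ℕ → Bool) → Y, Measurable u →
      AnalyticSet {p : (ℕ → Bool) × (ℕ → Bool) | EY (u p.1) (u p.2)})
    (hd : (∃ f : ℕ → X, ∀ x ∈ A, ∃ n, EX (f n) x) ∨
      (∃ c : (ℕ → Bool) → X, Continuous c ∧ (∀ a, c a ∈ A) ∧ ∀ a b, EX (c a) (c b) → a = b)) :
    (∃ f : ℕ → Y, ∀ y ∈ B, ∃ n, EY (f n) y) ∨
      (∃ c : (ℕ → Bool) → Y, Continuous c ∧ (∀ a, c a ∈ B) ∧ ∀ a b, EY (c a) (c b) → a = b) := by
  rcases hd with ⟨f, hf⟩ | ⟨c, hc, hcA, hci⟩
  · left
    refine ⟨fun n => ρ (f n), fun y hy => ?_⟩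
    obtain ⟨x, hx, hxy⟩ := hsur y hy
    obtain ⟨n, hn⟩ := hf x hx
    exact ⟨n, hYt _ _ _ (hinv _ _ hx hn) hxy⟩
  · right
    have hme : Measurable fun a => ρ (c a) := hρ.comp hc.measurable
    obtain ⟨h, hh1, hh2⟩ := Pool.Agent.H702R3.TV.core (E := EX) (F := EY) (ρ := ρ) (A := A)
      hXs hXt hcount c hcA hci (han _ hme)
    have hk : Measurable fun a => ρ (c (h a)) := hme.comp hh1.measurable
    obtain ⟨h', h1', h2'⟩ := Pool.Agent.H31R3.AL.cont_of_borel (fun a => ρ (c (h a))) hk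
    refine ⟨_, h2', fun a => hAB _ (hcA _), fun a b hab => ?_⟩
    apply h1'
    by_contra hne
    exact hh2 _ _ hne hab

/-! ### Structures with a binary relation -/

variable {Γ : Type}

/-- the structure for which `σ` is an isomorphism onto `x` -/
def rel (σ : Equiv.Perm ℕ) (x : XG Γ) : XG Γ :=
  (fun m n => x.1 (σ m) (σ n), fun γ m => σ.symm (x.2.1 γ (σ m)), fun i m => x.2.2 i (σ m))

theorem rel_iso (σ : Equiv.Perm ℕ) (x : XG Γ) : Isom σ (rel σ x) x :=
  ⟨fun _ _ => rfl, fun γ m => (σ.apply_symm_apply _).symm, fun _ _ => rfl⟩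

theorem iso_eq {σ : Equiv.Perm ℕ} {x y : XG Γ} (h : Isom σ x y) : x = rel σ y := by
  obtain ⟨h1, h2, h3⟩ := h
  refine Prod.ext ?_ (Prod.ext ?_ ?_)
  · funext m n
    exact (h1 m n).symm
  · funext γ m
    show x.2.1 γ m = σ.symm (y.2.1 γ (σ m))
    rw [h2, σ.symm_apply_apply]
  · funext i m
    exact (h3 i m).symm

theorem iso_symm {σ : Equiv.Perm ℕ} {x y : XG Γ} (h : Isom σ x y) : Isom σ.symm y x := by
  obtain ⟨h1, h2, h3⟩ := h
  refine ⟨fun m n => ?_, fun γ m => ?_, fun i m => ?_⟩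
  · rw [← h1, σ.apply_symm_apply, σ.apply_symm_apply]
  · have := h2 γ (σ.symm m)
    rw [σ.apply_symm_apply] at this
    rw [this, σ.symm_apply_apply]
  · rw [← h3, σ.apply_symm_apply]

theorem iso_trans {σ τ : Equiv.Perm ℕ} {x y z : XG Γ} (h : Isom σ x y) (h' : Isom τ y z) :
    Isom (σ.trans τ) x z :=
  ⟨fun m n => (h'.1 _ _).trans (h.1 m n), fun γ m => by
    show z.2.1 γ (τ (σ m)) = τ (σ (x.2.1 γ m))
    rw [h'.2.1, h.2.1], fun i m => (h'.2.2 i _).trans (h.2.2 i m)⟩

theorem bsG [Countable Γ] : BorelSpace (XG Γ) := by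
  have h1 : BorelSpace (ℕ → ℕ → Bool) := inferInstance
  have h2 : BorelSpace (Γ → ℕ → ℕ) := inferInstance
  have h3 : BorelSpace ((Γ → ℕ → ℕ) × (ℕ → ℕ → Bool)) := Prod.borelSpace
  exact Prod.borelSpace

theorem c_1 (m n : ℕ) : Measurable fun x : XG Γ => x.1 m n :=
  (measurable_pi_apply n).comp ((measurable_pi_apply m).comp measurable_fst)

theorem c_2 (γ : Γ) (m : ℕ) : Measurable fun x : XG Γ => x.2.1 γ m :=
  (measurable_pi_apply m).comp ((measurable_pi_apply γ).comp
    (measurable_fst.comp measurable_snd))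

theorem c_3 (i m : ℕ) : Measurable fun x : XG Γ => x.2.2 i m :=
  (measurable_pi_apply m).comp ((measurable_pi_apply i).comp
    (measurable_snd.comp measurable_snd))

theorem m_1 (m n : ℕ) : Measurable fun x : XG Γ => x.1 m n = true :=
  measurableSet_setOfPred.1 (c_1 m n (measurableSet_singleton true))

theorem m_2 (γ : Γ) (m n : ℕ) : Measurable fun x : XG Γ => x.2.1 γ m = n :=
  measurableSet_setOfPred.1 (c_2 γ m (measurableSet_singleton n))

theorem m_3 (i m : ℕ) : Measurable fun x : XG Γ => x.2.2 i m = true :=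
  measurableSet_setOfPred.1 (c_3 i m (measurableSet_singleton true))

open Classical in
theorem m_dec {Ω : Type} [MeasurableSpace Ω] {p : Ω → Prop} (h : Measurable p) :
    Measurable fun ω => decide (p ω) := by
  refine measurable_to_bool ?_
  have : (fun ω => decide (p ω)) ⁻¹' {true} = {ω | p ω} := by
    ext ω
    simp
  rw [this]
  exact measurableSet_setOfPred.2 h

/-- isomorphism of a Borel family of structures is analytic -/
theorem analytic_iso [Countable Γ] (u : (ℕ → Bool) → XG Γ) (hu : Measurable u) :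
    AnalyticSet {p : (ℕ → Bool) × (ℕ → Bool) | ∃ σ : Equiv.Perm ℕ, Isom σ (u p.1) (u p.2)} := by
  set Ω : Type := ((ℕ → Bool) × (ℕ → Bool)) × ((ℕ → ℕ) × (ℕ → ℕ)) with hΩ
  have m1 : ∀ a b : ℕ, Measurable fun q : Ω => q.2.1 a = b := fun a b => by
    have h : Measurable fun q : Ω => q.2.1 a :=
      (measurable_pi_apply a).comp (measurable_fst.comp measurable_snd)
    exact measurableSet_setOfPred.1 (h (measurableSet_singleton b))
  have m2 : ∀ a b : ℕ, Measurable fun q : Ω => q.2.2 a = b := fun a b => by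
    have h : Measurable fun q : Ω => q.2.2 a :=
      (measurable_pi_apply a).comp (measurable_snd.comp measurable_snd)
    exact measurableSet_setOfPred.1 (h (measurableSet_singleton b))
  have m3 : ∀ (f g : Ω → Bool), Measurable f → Measurable g →
      Measurable fun q : Ω => f q = g q := fun f g hf hg =>
    measurableSet_setOfPred.1 (measurableSet_eq_fun hf hg)
  have mu : Measurable fun q : Ω => u q.1.1 := hu.comp (measurable_fst.comp measurable_fst)
  have mv : Measurable fun q : Ω => u q.1.2 := hu.comp (measurable_snd.comp measurable_fst)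
  let P : Ω → Prop := fun q => (∀ a b, q.2.1 a = b → q.2.2 b = a) ∧
    (∀ a b, q.2.2 a = b → q.2.1 b = a) ∧
    (∀ a b c d, q.2.1 a = c → q.2.1 b = d → (u q.1.2).1 c d = (u q.1.1).1 a b) ∧
    (∀ (γ : Γ) (a b c d : ℕ), q.2.1 a = c → q.2.1 b = d → (u q.1.1).2.1 γ a = b →
      (u q.1.2).2.1 γ c = d) ∧
    ∀ i a c, q.2.1 a = c → (u q.1.2).2.2 i c = (u q.1.1).2.2 i a
  have hP : Measurable P := by
    refine (Measurable.forall fun a => Measurable.forall fun b => (m1 a b).imp (m2 b a)).and ?_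
    refine (Measurable.forall fun a => Measurable.forall fun b => (m2 a b).imp (m1 b a)).and ?_
    refine (Measurable.forall fun a => Measurable.forall fun b => Measurable.forall fun c =>
      Measurable.forall fun d => (m1 a c).imp ((m1 b d).imp (m3 _ _ ?_ ?_))).and ?_
    · exact (c_1 c d).comp mv
    · exact (c_1 a b).comp mu
    refine (Measurable.forall fun γ => Measurable.forall fun a => Measurable.forall fun b =>
      Measurable.forall fun c => Measurable.forall fun d => (m1 a c).imp ((m1 b d).imp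
        (Measurable.imp ?_ ?_))).and ?_
    · exact (m_2 γ a b).comp mu
    · exact (m_2 γ c d).comp mv
    refine Measurable.forall fun i => Measurable.forall fun a => Measurable.forall fun c =>
      (m1 a c).imp (m3 _ _ ?_ ?_)
    · exact (c_3 i c).comp mv
    · exact (c_3 i a).comp mu
  have h2 : {p : (ℕ → Bool) × (ℕ → Bool) | ∃ σ : Equiv.Perm ℕ, Isom σ (u p.1) (u p.2)} =
      Prod.fst '' {q : Ω | P q} := by
    ext p
    constructor
    · rintro ⟨σ, hσ⟩
      refine ⟨(p, (⇑σ, ⇑σ.symm)), ⟨?_, ?_, ?_, ?_, ?_⟩, rfl⟩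
      · rintro a b rfl
        exact σ.symm_apply_apply a
      · rintro a b rfl
        exact σ.apply_symm_apply a
      · rintro a b c d rfl rfl
        exact hσ.1 a b
      · rintro γ a b c d rfl rfl h
        show (u p.2).2.1 γ (σ a) = σ b
        rw [hσ.2.1, h]
      · rintro i a c rfl
        exact hσ.2.2 i a
    · rintro ⟨q, ⟨h1, h2, h3, h4, h5⟩, rfl⟩
      refine ⟨⟨q.2.1, q.2.2, fun a => h1 a _ rfl, fun a => h2 a _ rfl⟩, ?_, ?_, ?_⟩
      · exact fun m n => h3 m n _ _ rfl rfl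
      · exact fun γ m => h4 γ m _ _ _ rfl rfl rfl
      · exact fun i m => h5 i m _ rfl
  rw [h2]
  exact (measurableSet_setOfPred.2 hP).analyticSet_image measurable_fst

end Pool.Agent.Y560.TH
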