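import Pool.Agent.Y560.TH.Cst3

/-!
Project TH: 0-hyperbolic metric spaces with an isometric group action, the statement and the
definitions of the coding.
-/

set_option autoImplicit false

namespace Pool.Agent.Y560.TH

open Set MeasureTheory
open Pool.Agent.H566P (XG Isom)
open Pool.Agent.Y560.TF (TO)

/-- Structures on `ℕ`: a distance `x.1`, a function `x.2.1 γ` for every `γ` in `Γ`, and unary
predicates `x.2.2 i`. -/
abbrev XM (Γ : Type) : Type := (ℕ → ℕ → ℝ) × (Γ → ℕ → ℕ) × (ℕ → ℕ → Bool)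

/-- 0-hyperbolic metric spaces (subspaces of real trees) with an isometric action. -/
structure HY {Γ : Type} [Group Γ] (x : XM Γ) : Prop where
  zero : ∀ a b, x.1 a b = 0 ↔ a = b
  symm : ∀ a b, x.1 a b = x.1 b a
  four : ∀ a b c d, x.1 a b + x.1 c d ≤ max (x.1 a c + x.1 b d) (x.1 a d + x.1 b c)
  one : ∀ m, x.2.1 1 m = m
  mul : ∀ γ δ m, x.2.1 (γ * δ) m = x.2.1 γ (x.2.1 δ m)
  isom : ∀ γ a b, x.1 (x.2.1 γ a) (x.2.1 γ b) = x.1 a b

/-- `σ` is an isomorphism from `x` to `y`. -/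
def IsoM {Γ : Type} (σ : Equiv.Perm ℕ) (x y : XM Γ) : Prop :=
  (∀ a b, y.1 (σ a) (σ b) = x.1 a b) ∧ (∀ γ m, y.2.1 γ (σ m) = σ (x.2.1 γ m)) ∧
    ∀ i m, y.2.2 i (σ m) = x.2.2 i m

/-- The theorem on 0-hyperbolic metric spaces with an isometric group action. -/
def S_HYP : Prop := ∀ (Γ : Type) [Group Γ] [Countable Γ] (B : Set (XM Γ)), MeasurableSet B →
  (∀ x ∈ B, HY x) → (∀ x ∈ B, ∀ (y : XM Γ) (σ : Equiv.Perm ℕ), IsoM σ x y → y ∈ B) →
  (∃ f : ℕ → XM Γ, ∀ x ∈ B, ∃ n, ∃ σ : Equiv.Perm ℕ, IsoM σ (f n) x) ∨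
  (∃ c : (ℕ → Bool) → XM Γ, Continuous c ∧ (∀ A, c A ∈ B) ∧
    ∀ A A', (∃ σ : Equiv.Perm ℕ, IsoM σ (c A) (c A')) → A = A')

section defs

variable {Γ : Type}

/-- Labels: the distances of `u` and of `p` to the translates of `p`. -/
abbrev LH (Γ : Type) : Type := (Γ → ℝ) × (Γ → ℝ)

/-- The label of `u`. -/
def lh (x : XM Γ) (p u : ℕ) : LH Γ := (fun δ => x.1 u (x.2.1 δ p), fun δ => x.1 p (x.2.1 δ p))

/-- The difference is constant. -/
def cst (s t : Γ → ℝ) : Prop := ∀ γ δ, s γ - t γ = s δ - t δ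

/-- `a` and `b` hang at the same place of the hull of the orbit of `p`. -/
def eqh (x : XM Γ) (p a b : ℕ) : Prop := cst (lh x p a).1 (lh x p b).1

/-- Twice the Gromov product. -/
def gp (x : XM Γ) (p a b : ℕ) : ℝ := x.1 a p + x.1 b p - x.1 a b

open Classical in
/-- the bound -/
noncomputable def kh (x : XM Γ) (p a b : ℕ) : ℝ := if eqh x p a b then gp x p a b else gp x p a a

/-- The sets: the points beyond the branching point of `a` and `b` if they hang at the same place,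
the points beyond `a` otherwise. -/
def UH (x : XM Γ) (p : ℕ) (s : ℕ × ℕ) : Set ℕ :=
  {c | eqh x p s.1 c ∧ kh x p s.1 s.2 ≤ gp x p s.1 c}

/-- The predicates of the code; `e` enumerates labels and `r` enumerates products. -/
def PrH (x : XM Γ) (p : ℕ) (e : ℕ → LH Γ) (r : ℕ → ℝ) (s : ℕ × ℕ) : ℕ → Prop
  | 0 => ∃ w, UH x p s = UH x p (w, w)
  | n + 1 =>
    (n % 3 = 0 ∧ ∃ w, UH x p s = UH x p (w, w) ∧ lh x p w = e (n / 3)) ∨
    (n % 3 = 1 ∧ ∃ a b, eqh x p a b ∧ UH x p s = UH x p (a, b) ∧ gp x p a b = r (n / 3)) ∨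
    (n % 3 = 2 ∧ ∃ w, UH x p s = UH x p (w, w) ∧ x.2.2 (n / 3) w = true)

/-- `y` is the code of `x` with the named point `p`, via `f`. -/
structure CodH (e : ℕ → LH Γ) (r : ℕ → ℝ) (x : XM Γ) (p : ℕ) (f : ℕ × ℕ → ℕ) (y : XG Γ) :
    Prop where
  sur : ∀ m, ∃ s, f s = m
  eq : ∀ s t, f s = f t ↔ UH x p s = UH x p t
  lt : ∀ s t, y.1 (f s) (f t) = true ↔ UH x p t ⊂ UH x p s
  act : ∀ γ a b, y.2.1 γ (f (a, b)) = f (x.2.1 γ a, x.2.1 γ b)
  pr : ∀ n s, y.2.2 n (f s) = true ↔ PrH x p e r s n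

/-- The points. -/
noncomputable def enh (y : XG Γ) (a : ℕ) : ℕ := Nat.nth (fun m => y.2.2 0 m = true) a

/-- The index of the label of a point. -/
noncomputable def ixh (y : XG Γ) (a : ℕ) : ℕ :=
  Nat.nth (fun i => y.2.2 (3 * i + 1) (enh y a) = true) 0

/-- `K` is the node of `a`, `b`. -/
def ndh (y : XG Γ) (a b K : ℕ) : Prop := (K = a ∨ y.1 K a = true) ∧ (K = b ∨ y.1 K b = true) ∧
  ∀ K', (K' = a ∨ y.1 K' a = true) → (K' = b ∨ y.1 K' b = true) → K' = K ∨ y.1 K' K = true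

/-- The index of the product. -/
noncomputable def jxh (y : XG Γ) (a b : ℕ) : ℕ :=
  Nat.nth (fun j => ∃ K, ndh y (enh y a) (enh y b) K ∧ y.2.2 (3 * j + 2) K = true) 0

open Classical in
/-- The distance of points at different places of the hull. -/
noncomputable def dd [Group Γ] (s t : LH Γ) : ℝ :=
  if h : ∃ q : Γ × Γ, s.1 q.1 + t.1 q.2 < s.1 q.2 + t.1 q.1 then
    s.1 h.choose.2 + t.1 h.choose.1 - s.2 (h.choose.1⁻¹ * h.choose.2)
  else 0

open Classical in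
/-- The distance as a function of the indices. -/
noncomputable def Gh [Group Γ] (e : ℕ → LH Γ) (r : ℕ → ℝ) (i j k : ℕ) : ℝ :=
  if cst (e i).1 (e j).1 then (e i).1 1 + (e j).1 1 - r k else dd (e i) (e j)

/-- The decoding map. -/
noncomputable def DH [Group Γ] (e : ℕ → LH Γ) (r : ℕ → ℝ) (y : XG Γ) : XM Γ :=
  (fun a b => Gh e r (ixh y a) (ixh y b) (jxh y a b),
   fun γ a => Nat.nth (fun k => enh y k = y.2.1 γ (enh y a)) 0,
   fun i a => y.2.2 (3 * i + 3) (enh y a))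

open Classical in
/-- The coding map. -/
noncomputable def fH (e : ℕ → LH Γ) (y : XG Γ) (s : ℕ × ℕ) : ℕ :=
  if cst (e (ixh y s.1)).1 (e (ixh y s.2)).1 then
    Nat.nth (fun K => ndh y (enh y s.1) (enh y s.2) K) 0
  else enh y s.1

end defs

/-- `e` and `r` enumerate the labels and products of `x`. -/
def Covh {Γ : Type} (e : ℕ → LH Γ) (r : ℕ → ℝ) (x : XM Γ) : Prop :=
  (∀ p u, ∃ i, lh x p u = e i) ∧ ∀ p a b, ∃ i, gp x p a b = r i

/-- The coding part. -/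
structure HYB (Γ : Type) [Group Γ] (e : ℕ → LH Γ) (r : ℕ → ℝ) : Prop where
  ex : ∀ (x : XM Γ) p, HY x → ∃ f y, CodH e r x p f y
  semi : ∀ (x : XM Γ) p f y, HY x → CodH e r x p f y → TO y
  dec : ∀ (x : XM Γ) p f y, HY x → Covh e r x → CodH e r x p f y →
    ∃ θ : Equiv.Perm ℕ, IsoM θ (DH e r y) x ∧ CodH e r (DH e r y) (θ.symm p) (fH e y) y
  uni : ∀ (x : XM Γ) p f y f' y', CodH e r x p f y → CodH e r x p f' y' →
    ∃ σ : Equiv.Perm ℕ, Isom σ y y'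
  trans : ∀ (x : XM Γ) p f y y' (σ : Equiv.Perm ℕ), CodH e r x p f y → Isom σ y y' →
    CodH e r x p (fun s => σ (f s)) y'
  pull : ∀ (x x' : XM Γ) p f y (θ : Equiv.Perm ℕ), CodH e r x p f y → IsoM θ x' x →
    CodH e r x' (θ.symm p) (fun s => f (θ s.1, θ s.2)) y

/-- The coding part. -/
def S_HYB : Prop := ∀ (Γ : Type) [Group Γ] (e : ℕ → LH Γ) (r : ℕ → ℝ), HYB Γ e r

/-- The measurability part. -/
def S_HYM : Prop := ∀ (Γ : Type) [Group Γ] [Countable Γ] (e : ℕ → LH Γ) (r : ℕ → ℝ),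
  Measurable (DH e r : XG Γ → XM Γ) ∧
  MeasurableSet {y : XG Γ | ∃ p, CodH e r (DH e r y) p (fH e y) y}

end Pool.Agent.Y560.TH
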