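import Pool.Agent.Y560.TH.Cst3

/-!
Project TH: median trees with a group action. The rooted order, the hull of an orbit, types.
-/

set_option autoImplicit false

namespace Pool.Agent.Y560.TH

open Pool.Agent.H566P (XG Isom)

variable {Γ : Type}

/-- the order with root `p` -/
def le (x : XC Γ) (p a b : ℕ) : Prop := x.1 p a b = true

/-- the hull of the orbit of `p` -/
def T0 (x : XC Γ) (p u : ℕ) : Prop := ∃ γ, x.1 p u (x.2.1 γ p) = true

/-- `g` is the gate of `v` -/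
def gt (x : XC Γ) (p g v : ℕ) : Prop :=
  T0 x p g ∧ ¬ T0 x p v ∧ le x p g v ∧ ∀ t, T0 x p t → le x p t v → le x p t g

/-- the type over the orbit -/
def ty (x : XC Γ) (p u : ℕ) : Γ × Γ → Bool := fun q => x.1 (x.2.1 q.1 p) u (x.2.1 q.2 p)

open Classical in
/-- the ends of the hull -/
noncomputable def wt (x : XC Γ) (p u : ℕ) : Γ × Γ → Bool := fun q =>
  decide (¬ T0 x p u ∧ ∃ m, x.1 p m (x.2.1 q.1 p) = true ∧ x.1 p m (x.2.1 q.2 p) = true ∧
    x.1 (x.2.1 q.1 p) m (x.2.1 q.2 p) = true ∧ x.1 p m u = true)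

/-- labels -/
abbrev Lbl (Γ : Type) : Type := (Γ × Γ → Bool) × (Γ × Γ → Bool)

/-- the label -/
noncomputable def lab (x : XC Γ) (p u : ℕ) : Lbl Γ := (ty x p u, wt x p u)

section mt

variable [Group Γ] {x : XC Γ}

theorem mt_rr (h : MT x) (a c : ℕ) : x.1 a c c = true := h.symm _ _ _ (h.left c a)

theorem mt_tr (h : MT x) {a b c d : ℕ} (h1 : x.1 a b c = true) (h2 : x.1 a d b = true) :
    x.1 a d c = true := by
  rcases h.tree a c b d h2 with h3 | h3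
  · exact h3
  · rcases h.tree a d c b h1 with h4 | h4
    · rw [h.anti _ _ _ h2 h4]
      exact h1
    · rw [h.anti _ _ _ h3 (h.symm _ _ _ h4)]
      exact h1

theorem mt_tr2 (h : MT x) {a b c d : ℕ} (h1 : x.1 a b c = true) (h2 : x.1 a d b = true) :
    x.1 d b c = true := by
  rcases h.tree a d c b h1 with h4 | h4
  · rw [h.anti _ _ _ h2 h4]
    exact h.left _ _
  · exact h4

theorem mt_cmp (h : MT x) {p a b c : ℕ} (h1 : x.1 p a c = true) (h2 : x.1 p b c = true) :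
    x.1 p a b = true ∨ x.1 p b a = true := by
  rcases h.tree p b c a h1 with h3 | h3
  · exact Or.inl h3
  · rcases h.tree p a c b h2 with h4 | h4
    · exact Or.inr h4
    · rw [h.anti _ _ _ (h.symm _ _ _ h3) (h.symm _ _ _ h4)]
      exact Or.inl (mt_rr h _ _)

/-- meets are greatest lower bounds -/
theorem mt_glb (h : MT x) {p a b m z : ℕ} (h1 : x.1 a m b = true) (h2 : x.1 p z a = true)
    (h3 : x.1 p z b = true) : x.1 p z m = true := by
  have key : ∀ c, x.1 c m z = true → x.1 p z c = true → x.1 p z m = true := by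
    intro c h4 h5
    rcases h.tree p m c z h5 with h6 | h6
    · exact h6
    · rw [h.anti _ _ _ h4 (h.symm _ _ _ h6)]
      exact mt_rr h _ _
  rcases h.tree a z b m h1 with h4 | h4
  · exact key a h4 h2
  · exact key b (h.symm _ _ _ h4) h3

theorem mt_int (h : MT x) (p a b c : ℕ) : x.1 a b c = true ↔
    (le x p b a ∨ le x p b c) ∧ ∀ z, le x p z a → le x p z c → le x p z b := by
  constructor
  · intro h1
    refine ⟨?_, fun z h2 h3 => mt_glb h h1 h2 h3⟩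
    rcases h.tree a p c b h1 with h2 | h2
    · exact Or.inl (h.symm _ _ _ h2)
    · exact Or.inr h2
  · rintro ⟨h1, h2⟩
    obtain ⟨m, m1, m2, m3⟩ := h.med p a c
    have h3 := h2 m m1 m3
    rcases h1 with h1 | h1
    · have h4 : x.1 m b a = true := mt_tr2 h h1 h3
      exact mt_tr h m2 (h.symm _ _ _ h4)
    · have h4 : x.1 m b c = true := mt_tr2 h h1 h3
      exact h.symm _ _ _ (mt_tr h (h.symm _ _ _ m2) (h.symm _ _ _ h4))

theorem mt_inv (h : MT x) (γ : Γ) (m : ℕ) : x.2.1 γ⁻¹ (x.2.1 γ m) = m := by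
  rw [← h.mul, inv_mul_cancel, h.one]

theorem mt_inv' (h : MT x) (γ : Γ) (m : ℕ) : x.2.1 γ (x.2.1 γ⁻¹ m) = m := by
  rw [← h.mul, mul_inv_cancel, h.one]

theorem mt_inj (h : MT x) (γ : Γ) {a b : ℕ} (hab : x.2.1 γ a = x.2.1 γ b) : a = b := by
  have h1 := congrArg (x.2.1 γ⁻¹) hab
  rwa [mt_inv h, mt_inv h] at h1

theorem mt_auto (h : MT x) (γ : Γ) (a b c : ℕ) :
    x.1 (x.2.1 γ a) (x.2.1 γ b) (x.2.1 γ c) = true ↔ x.1 a b c = true := by
  refine ⟨fun h1 => ?_, h.auto γ a b c⟩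
  have h2 := h.auto γ⁻¹ _ _ _ h1
  rwa [mt_inv h, mt_inv h, mt_inv h] at h2

/-- change of the root -/
theorem mt_root (h : MT x) (γ : Γ) (p a b : ℕ) :
    x.1 p (x.2.1 γ a) (x.2.1 γ b) = true ↔ x.1 (x.2.1 γ⁻¹ p) a b = true := by
  rw [← mt_auto h γ (x.2.1 γ⁻¹ p) a b, mt_inv' h]

theorem T0_p (h : MT x) (p : ℕ) : T0 x p p := ⟨1, h.left _ _⟩

theorem T0_q (h : MT x) (p : ℕ) (γ : Γ) : T0 x p (x.2.1 γ p) := ⟨γ, mt_rr h _ _⟩

theorem T0_down (h : MT x) {p u v : ℕ} (h1 : le x p u v) (h2 : T0 x p v) : T0 x p u := by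
  obtain ⟨γ, h2⟩ := h2
  exact ⟨γ, mt_tr h h2 h1⟩

theorem T0_act (h : MT x) (γ : Γ) {p u : ℕ} (h1 : T0 x p u) : T0 x p (x.2.1 γ u) := by
  obtain ⟨δ, h1⟩ := h1
  have h2 := h.auto γ _ _ _ h1
  rcases h.tree _ p _ _ h2 with h3 | h3
  · exact ⟨γ, h.symm _ _ _ h3⟩
  · refine ⟨γ * δ, ?_⟩
    rw [h.mul]
    exact h3

theorem T0_act_iff (h : MT x) (γ : Γ) (p u : ℕ) : T0 x p (x.2.1 γ u) ↔ T0 x p u := by
  refine ⟨fun h1 => ?_, T0_act h γ⟩
  have h2 := T0_act h γ⁻¹ h1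
  rwa [mt_inv h] at h2

/-- the part of the segment to a translate of the root outside of the hull -/
theorem out_seg (h : MT x) (γ : Γ) {p u v : ℕ} (h1 : le x p u v) (hu : ¬ T0 x p u) :
    x.1 (x.2.1 γ p) u v = true := by
  rcases h.tree p (x.2.1 γ p) v u h1 with h2 | h2
  · exact absurd ⟨γ, h2⟩ hu
  · exact h2

theorem ty_act (h : MT x) (γ α β : Γ) (p u : ℕ) :
    ty x p (x.2.1 γ u) (α, β) = ty x p u (γ⁻¹ * α, γ⁻¹ * β) := by
  unfold ty
  rw [Bool.eq_iff_iff, ← mt_auto h γ⁻¹, mt_inv h]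
  simp only [h.mul]

theorem ty_act_eq (h : MT x) (γ : Γ) {p u v : ℕ} (h1 : ty x p u = ty x p v) :
    ty x p (x.2.1 γ u) = ty x p (x.2.1 γ v) := by
  funext ⟨α, β⟩
  rw [ty_act h, ty_act h, h1]

theorem ty_one (h : MT x) (p u : ℕ) (γ : Γ) : ty x p u (1, γ) = x.1 p u (x.2.1 γ p) := by
  show x.1 (x.2.1 1 p) u (x.2.1 γ p) = _
  rw [h.one]

theorem T0_iff (h : MT x) (p u : ℕ) : T0 x p u ↔ ∃ γ, ty x p u (1, γ) = true := by
  simp only [ty_one h]
  rfl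

theorem ty_cmp (h : MT x) {p u v : ℕ} (hu : T0 x p u) (h1 : ty x p u = ty x p v) :
    le x p u v ∨ le x p v u := by
  obtain ⟨γ, hγ⟩ := (T0_iff h p u).1 hu
  have h2 := hγ
  rw [h1] at h2
  rw [ty_one h] at hγ h2
  exact mt_cmp h hγ h2

/-- comparison of types -/
def Tle (s t : Γ × Γ → Bool) : Prop := (∀ γ, t (1, γ) = true → s (1, γ) = true) ∧
  ∀ γ δ, t (1, γ) = true → s (γ, δ) = true → t (γ, δ) = true

theorem tle_of_le (h : MT x) {p u v : ℕ} (h1 : le x p u v) : Tle (ty x p u) (ty x p v) := by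
  refine ⟨fun γ h2 => ?_, fun γ δ h2 h3 => ?_⟩
  · rw [ty_one h] at h2 ⊢
    exact mt_tr h h2 h1
  · rw [ty_one h] at h2
    have h4 : x.1 (x.2.1 γ p) u (x.2.1 δ p) = true := h3
    show x.1 (x.2.1 γ p) v (x.2.1 δ p) = true
    rw [mt_int h p] at h4 ⊢
    exact ⟨Or.inl h2, fun z z1 z2 => mt_tr h h1 (h4.2 z z1 z2)⟩

theorem ty_symm (h : MT x) (p u : ℕ) (α β : Γ) (h1 : ty x p u (α, β) = true) :
    ty x p u (β, α) = true := h.symm _ _ _ h1

theorem tle_aux (h : MT x) {p u v : ℕ} (h1 : Tle (ty x p u) (ty x p v))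
    (h2 : Tle (ty x p v) (ty x p u)) (α β : Γ) (h3 : ty x p u (α, β) = true) :
    ty x p v (α, β) = true := by
  have h4 : x.1 (x.2.1 α p) u (x.2.1 β p) = true := h3
  rw [mt_int h p] at h4
  rcases h4.1 with h5 | h5
  · have h6 : ty x p u (1, α) = true := by rw [ty_one h]; exact h5
    exact h1.2 _ _ (h2.1 _ h6) h3
  · have h6 : ty x p u (1, β) = true := by rw [ty_one h]; exact h5
    exact ty_symm h _ _ _ _ (h1.2 _ _ (h2.1 _ h6) (ty_symm h _ _ _ _ h3))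

theorem tle_anti (h : MT x) {p u v : ℕ} (h1 : Tle (ty x p u) (ty x p v))
    (h2 : Tle (ty x p v) (ty x p u)) : ty x p u = ty x p v := by
  funext ⟨α, β⟩
  rw [Bool.eq_iff_iff]
  exact ⟨tle_aux h h1 h2 α β, tle_aux h h2 h1 α β⟩

/-- the order of the hull between different types -/
theorem le_iff_tle (h : MT x) {p u v : ℕ} (hv : T0 x p v)
    (hne : ty x p u ≠ ty x p v) : le x p u v ↔ Tle (ty x p u) (ty x p v) := by
  refine ⟨fun h1 => tle_of_le h h1, fun h1 => ?_⟩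
  obtain ⟨γ, hγ⟩ := (T0_iff h p v).1 hv
  have h2 := h1.1 γ hγ
  rw [ty_one h] at hγ h2
  rcases mt_cmp h h2 hγ with h3 | h3
  · exact h3
  · exact absurd (tle_anti h h1 (tle_of_le h h3)) hne

theorem gt_uniq (h : MT x) {p g g' v : ℕ} (h1 : gt x p g v) (h2 : gt x p g' v) : g = g' :=
  h.anti _ _ _ (h2.2.2.2 g h1.1 h1.2.2.1) (h1.2.2.2 g' h2.1 h2.2.2.1)

theorem gt_seg (h : MT x) {p g v t : ℕ} (h1 : gt x p g v) (ht : T0 x p t)
    (h2 : x.1 g t v = true) : t = g := by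
  have h3 : x.1 p g v = true := h1.2.2.1
  have h4 : x.1 v t p = true := mt_tr h (h.symm _ _ _ h3) (h.symm _ _ _ h2)
  have h5 := h1.2.2.2 t ht (h.symm _ _ _ h4)
  have h6 : x.1 p g t = true := by
    have h7 := mt_tr2 h (h.symm _ _ _ h3) (h.symm _ _ _ h2)
    exact h.symm _ _ _ h7
  exact h.anti _ _ _ h5 h6

theorem gt_act (h : MT x) (γ : Γ) {p g v : ℕ} (h1 : gt x p g v) :
    gt x p (x.2.1 γ g) (x.2.1 γ v) := by
  have hgq : x.1 (x.2.1 γ⁻¹ p) g v = true := by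
    obtain ⟨m, m1, m2, m3⟩ := h.med p v (x.2.1 γ⁻¹ p)
    rcases h.tree p (x.2.1 γ⁻¹ p) v g h1.2.2.1 with h2 | h2
    · have hm : T0 x p m := ⟨γ⁻¹, m3⟩
      have h3 := h1.2.2.2 m hm m1
      have h4 : x.1 p g m = true := mt_glb h m2 h1.2.2.1 h2
      rw [h.anti _ _ _ h4 h3]
      exact h.symm _ _ _ m2
    · exact h2
  refine ⟨T0_act h γ h1.1, fun h2 => h1.2.1 ((T0_act_iff h γ p v).1 h2), ?_, ?_⟩
  · show x.1 p (x.2.1 γ g) (x.2.1 γ v) = true
    rw [mt_root h]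
    exact hgq
  · intro t ht h2
    obtain ⟨s, rfl⟩ : ∃ s, x.2.1 γ s = t := ⟨x.2.1 γ⁻¹ t, mt_inv' h _ _⟩
    have h2' : x.1 p (x.2.1 γ s) (x.2.1 γ v) = true := h2
    rw [mt_root h] at h2'
    show x.1 p (x.2.1 γ s) (x.2.1 γ g) = true
    rw [mt_root h]
    rcases h.tree _ g _ _ h2' with h3 | h3
    · exact h3
    · rw [gt_seg h h1 ((T0_act_iff h γ p s).1 ht) h3]
      exact mt_rr h _ _

/-- below an end of the hull -/
theorem wt_of (h : MT x) {p u v : ℕ} (hu : T0 x p u) (hv : ¬ T0 x p v) (h1 : le x p u v)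
    (hg : ¬ ∃ g, gt x p g v) : ∃ γ δ, ty x p u (1, γ) = true ∧ ty x p u (1, δ) = true ∧
      wt x p v (γ, δ) = true := by
  classical
  obtain ⟨γ, hγ⟩ := (T0_iff h p u).1 hu
  rw [ty_one h] at hγ
  obtain ⟨g, g1, g2, g3⟩ := h.med p v (x.2.1 γ p)
  have hug : x.1 p u g = true := mt_glb h g2 h1 hγ
  have h2 : ¬ gt x p g v := fun h2 => hg ⟨g, h2⟩
  have h3 : ∃ t, T0 x p t ∧ le x p t v ∧ ¬ le x p t g := by
    by_contra hc
    push Not at hc
    exact h2 ⟨⟨γ, g3⟩, hv, g1, hc⟩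
  obtain ⟨t, ⟨δ, ht⟩, t2, t3⟩ := h3
  have hgt : x.1 p g t = true := (mt_cmp h t2 g1).resolve_left t3
  obtain ⟨b, b1, b2, b3⟩ := h.med p (x.2.1 γ p) (x.2.1 δ p)
  have hbt : x.1 p b t = true := by
    rcases mt_cmp h b3 ht with h4 | h4
    · exact h4
    · exact absurd (mt_glb h g2 t2 (mt_tr h b1 h4)) t3
  refine ⟨γ, δ, ?_, ?_, ?_⟩
  · rw [ty_one h]
    exact hγ
  · rw [ty_one h]
    exact mt_tr h ht (mt_tr h hgt hug)
  · unfold wt
    rw [decide_eq_true_eq]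
    exact ⟨hv, b, b1, b3, b2, mt_tr h t2 hbt⟩

theorem le_of_wt (h : MT x) {p u v : ℕ} {γ δ : Γ} (h1 : ty x p u (1, γ) = true)
    (h2 : ty x p u (1, δ) = true) (h3 : wt x p v (γ, δ) = true) : le x p u v := by
  classical
  rw [ty_one h] at h1 h2
  unfold wt at h3
  rw [decide_eq_true_eq] at h3
  obtain ⟨-, m, -, -, m3, m4⟩ := h3
  exact mt_tr h m4 (mt_glb h m3 h1 h2)

omit [Group Γ] in
theorem wt_core {p u : ℕ} (hu : T0 x p u) : wt x p u = fun _ => false := by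
  funext q
  unfold wt
  rw [decide_eq_false_iff_not]
  exact fun h1 => h1.1 hu

omit [Group Γ] in
theorem lab_core {p u v : ℕ} (hu : T0 x p u) (hv : T0 x p v) :
    lab x p u = lab x p v ↔ ty x p u = ty x p v := by
  unfold lab
  rw [wt_core hu, wt_core hv]
  constructor
  · exact fun h1 => congrArg Prod.fst h1
  · intro h1
    rw [h1]

end mt

end Pool.Agent.Y560.TH
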