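import Pool.Agent.Y560.TH.MedA

/-!
Project TH: median trees with a group action. The structure with local chains.
-/

set_option autoImplicit false

namespace Pool.Agent.Y560.TH

open Pool.Agent.H566P (XG Isom)

variable {Γ : Type}

/-- the new order -/
def lm (x : XC Γ) (p u v : ℕ) : Prop :=
  (T0 x p u ∧ T0 x p v ∧ ty x p u = ty x p v ∧ le x p u v ∧ u ≠ v) ∨
  (¬ T0 x p u ∧ ¬ T0 x p v ∧ le x p u v ∧ u ≠ v) ∨
  (T0 x p u ∧ ¬ T0 x p v ∧ ∃ g, gt x p g v ∧
    (u = g ∨ (ty x p u = ty x p g ∧ le x p u g ∧ u ≠ g)))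

/-- the predicates -/
def pm (x : XC Γ) (p : ℕ) (e : ℕ → Lbl Γ) (n u : ℕ) : Prop :=
  (n = 0 ∧ T0 x p u) ∨ (n = 2 ∧ u = p) ∨ (∃ i, n = 2 * i + 1 ∧ lab x p u = e i) ∨
    ∃ i, n = 2 * i + 4 ∧ x.2.2 i u = true

open Classical in
/-- the structure with local chains -/
noncomputable def FM (e : ℕ → Lbl Γ) (p : ℕ) (x : XC Γ) : XG Γ :=
  (fun u v => decide (lm x p u v), x.2.1, fun n u => decide (pm x p e n u))

theorem FM_lt {e : ℕ → Lbl Γ} {p : ℕ} {x : XC Γ} {u v : ℕ} :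
    (FM e p x).1 u v = true ↔ lm x p u v := by
  classical
  exact decide_eq_true_iff

theorem FM_K0 {e : ℕ → Lbl Γ} {p : ℕ} {x : XC Γ} {u : ℕ} : K0 (FM e p x) u ↔ T0 x p u := by
  classical
  refine decide_eq_true_iff.trans ⟨?_, fun h => Or.inl ⟨rfl, h⟩⟩
  rintro (⟨-, h⟩ | ⟨h, -⟩ | ⟨i, h, -⟩ | ⟨i, h, -⟩)
  · exact h
  · omega
  · omega
  · omega

theorem FM_p {e : ℕ → Lbl Γ} {p : ℕ} {x : XC Γ} {u : ℕ} :
    (FM e p x).2.2 2 u = true ↔ u = p := by
  classical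
  refine decide_eq_true_iff.trans ⟨?_, fun h => Or.inr (Or.inl ⟨rfl, h⟩)⟩
  rintro (⟨h, -⟩ | ⟨-, h⟩ | ⟨i, h, -⟩ | ⟨i, h, -⟩)
  · omega
  · exact h
  · omega
  · omega

theorem FM_lab {e : ℕ → Lbl Γ} {p : ℕ} {x : XC Γ} {i u : ℕ} :
    (FM e p x).2.2 (2 * i + 1) u = true ↔ lab x p u = e i := by
  classical
  refine decide_eq_true_iff.trans ⟨?_, fun h => Or.inr (Or.inr (Or.inl ⟨i, rfl, h⟩))⟩
  rintro (⟨h, -⟩ | ⟨h, -⟩ | ⟨j, h, h2⟩ | ⟨j, h, -⟩)
  · omega
  · omega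
  · rw [h2, show j = i by omega]
  · omega

theorem FM_pr {e : ℕ → Lbl Γ} {p : ℕ} {x : XC Γ} {i u : ℕ} :
    (FM e p x).2.2 (2 * i + 4) u = true ↔ x.2.2 i u = true := by
  classical
  refine decide_eq_true_iff.trans ⟨?_, fun h => Or.inr (Or.inr (Or.inr ⟨i, rfl, h⟩))⟩
  rintro (⟨h, -⟩ | ⟨h, -⟩ | ⟨j, h, h2⟩ | ⟨j, h, h2⟩)
  · omega
  · omega
  · omega
  · rwa [show i = j by omega]

section mt

variable [Group Γ] {x : XC Γ} {p : ℕ} {e : ℕ → Lbl Γ}

theorem FM_ch (he : ∀ u, ∃ i, lab x p u = e i) (u v : ℕ) :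
    ch (FM e p x) u v ↔ T0 x p u ∧ T0 x p v ∧ ty x p u = ty x p v := by
  unfold ch
  rw [FM_K0, FM_K0]
  refine and_congr_right fun hu => and_congr_right fun hv => ?_
  rw [← lab_core hu hv]
  constructor
  · intro h1
    obtain ⟨i, hi⟩ := he u
    have h2 := FM_lab.2 hi
    rw [h1 i] at h2
    rw [hi, FM_lab.1 h2]
  · intro h1 i
    rw [Bool.eq_iff_iff, FM_lab, FM_lab, h1]


theorem FM_LC (h : MT x) (he : ∀ u, ∃ i, lab x p u = e i) : LC (FM e p x) := by
  have trc : ∀ {a b c : ℕ}, ty x p a = ty x p b ∧ le x p a b ∧ a ≠ b →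
      ty x p b = ty x p c ∧ le x p b c ∧ b ≠ c → ty x p a = ty x p c ∧ le x p a c ∧ a ≠ c := by
    rintro a b c ⟨h1, h2, h3⟩ ⟨h4, h5, h6⟩
    refine ⟨h1.trans h4, mt_tr h h5 h2, ?_⟩
    rintro rfl
    exact h3 (h.anti _ _ _ h2 h5)
  -- the order on the chains and outside
  have hcore : ∀ {u v : ℕ}, T0 x p u → T0 x p v → lm x p u v →
      ty x p u = ty x p v ∧ le x p u v ∧ u ≠ v := by
    rintro u v hu hv (⟨-, -, h1⟩ | ⟨h1, -⟩ | ⟨-, h1, -⟩)
    · exact h1
    · exact absurd hu h1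
    · exact absurd hv h1
  have hout : ∀ {u v : ℕ}, ¬ T0 x p u → lm x p u v → ¬ T0 x p v ∧ le x p u v ∧ u ≠ v := by
    rintro u v hu (⟨h1, -⟩ | ⟨-, h1⟩ | ⟨h1, -⟩)
    · exact absurd h1 hu
    · exact h1
    · exact absurd h1 hu
  have hmix : ∀ {u v : ℕ}, T0 x p u → ¬ T0 x p v → lm x p u v →
      ∃ g, gt x p g v ∧ (u = g ∨ (ty x p u = ty x p g ∧ le x p u g ∧ u ≠ g)) := by
    rintro u v hu hv (⟨-, h1, -⟩ | ⟨h1, -⟩ | ⟨-, -, h1⟩)
    · exact absurd h1 hv
    · exact absurd hu h1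
    · exact h1
  have hirr : ∀ u, ¬ lm x p u u := by
    intro u h1
    by_cases hu : T0 x p u
    · exact (hcore hu hu h1).2.2 rfl
    · exact (hout hu h1).2.2 rfl
  have hmc : ∀ {u v : ℕ}, T0 x p u → T0 x p v → ty x p u = ty x p v → le x p u v → u ≠ v →
      lm x p u v := fun hu hv h1 h2 h3 => Or.inl ⟨hu, hv, h1, h2, h3⟩
  have hmo : ∀ {u v : ℕ}, ¬ T0 x p u → ¬ T0 x p v → le x p u v → u ≠ v → lm x p u v :=
    fun hu hv h1 h2 => Or.inr (Or.inl ⟨hu, hv, h1, h2⟩)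
  have hmm : ∀ {u v g : ℕ}, T0 x p u → ¬ T0 x p v → gt x p g v →
      (u = g ∨ (ty x p u = ty x p g ∧ le x p u g ∧ u ≠ g)) → lm x p u v :=
    fun hu hv h1 h2 => Or.inr (Or.inr ⟨hu, hv, _, h1, h2⟩)
  -- gates of larger elements
  have hgup : ∀ {g u v : ℕ}, gt x p g u → ¬ T0 x p v → le x p u v → gt x p g v := by
    intro g u v hg hv huv
    refine ⟨hg.1, hv, mt_tr h huv hg.2.2.1, fun t ht h1 => ?_⟩
    rcases mt_cmp h h1 huv with h2 | h2
    · exact hg.2.2.2 t ht h2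
    · exact absurd (T0_down h h2 ht) hg.2.1
  have hgdn : ∀ {g u v : ℕ}, gt x p g v → ¬ T0 x p u → le x p u v → gt x p g u := by
    intro g u v hg hu huv
    refine ⟨hg.1, hu, ?_, fun t ht h1 => hg.2.2.2 t ht (mt_tr h huv h1)⟩
    rcases mt_cmp h hg.2.2.1 huv with h2 | h2
    · exact h2
    · exact absurd (T0_down h h2 hg.1) hu
  -- the action on the chains
  have hq : ∀ (γ : Γ) {v w : ℕ}, ty x p v = ty x p w → le x p v w →
      (ty x p v (1, γ⁻¹) = true → le x p (x.2.1 γ w) (x.2.1 γ v)) ∧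
      (¬ ty x p v (1, γ⁻¹) = true → le x p (x.2.1 γ v) (x.2.1 γ w)) := by
    intro γ v w h1 h2
    constructor
    · intro h3
      have h4 := h3
      rw [h1, ty_one h] at h4
      show x.1 p _ _ = true
      rw [mt_root h]
      exact h.symm _ _ _ (mt_tr2 h h4 h2)
    · intro h3
      rw [ty_one h] at h3
      show x.1 p _ _ = true
      rw [mt_root h]
      exact (h.tree _ _ _ _ h2).resolve_left h3
  have hgg : ∀ {g v : ℕ}, gate (FM e p x) g v ↔ gt x p g v := by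
    intro g v
    constructor
    · rintro ⟨h1, h2, h3, h4⟩
      rw [FM_K0] at h1 h2
      rw [FM_lt] at h3
      obtain ⟨g', hg', h5⟩ := hmix h1 h2 h3
      rcases h5 with rfl | h5
      · exact hg'
      · have h6 := h4 g' (FM_K0.2 hg'.1) (FM_lt.2 (hmm hg'.1 h2 hg' (Or.inl rfl)))
        rcases h6 with rfl | h6
        · exact hg'
        · rw [FM_lt] at h6
          have h7 := (hcore hg'.1 h1 h6).2.1
          exact absurd (h.anti _ _ _ h5.2.1 h7) h5.2.2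
    · intro h1
      refine ⟨FM_K0.2 h1.1, fun h2 => h1.2.1 (FM_K0.1 h2),
        FM_lt.2 (hmm h1.1 h1.2.1 h1 (Or.inl rfl)), fun t ht h2 => ?_⟩
      rw [FM_K0] at ht
      rw [FM_lt] at h2 ⊢
      obtain ⟨g', hg', h3⟩ := hmix ht h1.2.1 h2
      rw [gt_uniq h h1 hg']
      rcases h3 with h3 | ⟨h3, h4, h5⟩
      · exact Or.inl h3
      · exact Or.inr (hmc ht hg'.1 h3 h4 h5)
  refine ⟨?_, ?_, ?_, h.one, h.mul, ?_, ?_, ?_, ?_, ?_, ?_, ?_, ?_⟩
  · intro m
    rw [Bool.eq_false_iff]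
    intro h1
    exact hirr m (FM_lt.1 h1)
  · intro m n k h1 h2
    rw [FM_lt] at h1 h2 ⊢
    by_cases hm : T0 x p m
    · by_cases hn : T0 x p n
      · have h3 := hcore hm hn h1
        by_cases hk : T0 x p k
        · have h4 := trc h3 (hcore hn hk h2)
          exact hmc hm hk h4.1 h4.2.1 h4.2.2
        · obtain ⟨g, hg, h4⟩ := hmix hn hk h2
          refine hmm hm hk hg (Or.inr ?_)
          rcases h4 with rfl | h4
          · exact h3
          · exact trc h3 h4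
      · obtain ⟨hk, h3, h4⟩ := hout hn h2
        obtain ⟨g, hg, h5⟩ := hmix hm hn h1
        exact hmm hm hk (hgup hg hk h3) h5
    · obtain ⟨hn, h3, h4⟩ := hout hm h1
      obtain ⟨hk, h5, h6⟩ := hout hn h2
      refine hmo hm hk (mt_tr h h5 h3) ?_
      rintro rfl
      exact h4 (h.anti _ _ _ h3 h5)
  · intro m n k h1 h2
    rw [FM_lt] at h1 h2 ⊢
    rw [FM_lt]
    have hcmp : ∀ {a b c : ℕ}, T0 x p a → T0 x p b → ty x p a = ty x p c → le x p a c →
        ty x p b = ty x p c → le x p b c → a = b ∨ lm x p a b ∨ lm x p b a := by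
      intro a b c ha hb q1 q2 q3 q4
      by_cases hab : a = b
      · exact Or.inl hab
      rcases mt_cmp h q2 q4 with h5 | h5
      · exact Or.inr (Or.inl (hmc ha hb (q1.trans q3.symm) h5 hab))
      · exact Or.inr (Or.inr (hmc hb ha (q3.trans q1.symm) h5 (Ne.symm hab)))
    by_cases hk : T0 x p k
    · have hm : T0 x p m := by
        by_contra hc
        exact (hout hc h1).1 hk
      have hn : T0 x p n := by
        by_contra hc
        exact (hout hc h2).1 hk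
      have h3 := hcore hm hk h1
      have h4 := hcore hn hk h2
      exact hcmp hm hn h3.1 h3.2.1 h4.1 h4.2.1
    · have hg1 : ∀ {u : ℕ}, T0 x p u → lm x p u k → ∀ g, gt x p g k →
          ty x p u = ty x p g ∧ le x p u g := by
        intro u hu q1 g hg
        obtain ⟨g', hg', q2⟩ := hmix hu hk q1
        rw [gt_uniq h hg hg']
        rcases q2 with rfl | q2
        · exact ⟨rfl, mt_rr h _ _⟩
        · exact ⟨q2.1, q2.2.1⟩
      by_cases hm : T0 x p m
      · obtain ⟨g, hg, -⟩ := hmix hm hk h1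
        have q1 := hg1 hm h1 g hg
        by_cases hn : T0 x p n
        · have q2 := hg1 hn h2 g hg
          exact hcmp hm hn q1.1 q1.2 q2.1 q2.2
        · obtain ⟨-, h3, h4⟩ := hout hn h2
          right; left
          refine hmm hm hn (hgdn hg hn h3) ?_
          by_cases hmg : m = g
          · exact Or.inl hmg
          · exact Or.inr ⟨q1.1, q1.2, hmg⟩
      · obtain ⟨-, h3, h4⟩ := hout hm h1
        by_cases hn : T0 x p n
        · obtain ⟨g, hg, -⟩ := hmix hn hk h2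
          have q1 := hg1 hn h2 g hg
          right; right
          refine hmm hn hm (hgdn hg hm h3) ?_
          by_cases hng : n = g
          · exact Or.inl hng
          · exact Or.inr ⟨q1.1, q1.2, hng⟩
        · obtain ⟨-, h5, h6⟩ := hout hn h2
          by_cases hmn : m = n
          · exact Or.inl hmn
          rcases mt_cmp h h3 h5 with h7 | h7
          · exact Or.inr (Or.inl (hmo hm hn h7 hmn))
          · exact Or.inr (Or.inr (hmo hn hm h7 (Ne.symm hmn)))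
  · intro u v h1 hv
    rw [FM_K0] at hv ⊢
    rw [FM_lt] at h1
    by_contra hc
    exact (hout hc h1).1 hv
  · intro u v hu hv hne
    rw [FM_ch he, FM_lt, FM_lt]
    rw [FM_K0] at hu hv
    constructor
    · rintro ⟨-, -, h1⟩
      rcases ty_cmp h hu h1 with h2 | h2
      · exact Or.inl (hmc hu hv h1 h2 hne)
      · exact Or.inr (hmc hv hu h1.symm h2 (Ne.symm hne))
    · rintro (h1 | h1)
      · exact ⟨hu, hv, (hcore hu hv h1).1⟩
      · exact ⟨hu, hv, (hcore hv hu h1).1.symm⟩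
  · intro γ u hu
    rw [FM_K0] at hu ⊢
    exact T0_act h γ hu
  · intro γ u v h1
    rw [FM_ch he] at h1 ⊢
    exact ⟨T0_act h γ h1.1, T0_act h γ h1.2.1, ty_act_eq h γ h1.2.2⟩
  · intro γ u hu
    by_cases hg : ty x p u (1, γ⁻¹) = true
    · right
      intro v w hv hw h1
      rw [FM_ch he] at hv hw
      rw [FM_lt] at h1 ⊢
      have h2 := hcore hv.2.1 hw.2.1 h1
      have h3 := (hq γ h2.1 h2.2.1).1 (by rw [← hv.2.2]; exact hg)
      refine hmc (T0_act h γ hw.2.1) (T0_act h γ hv.2.1) (ty_act_eq h γ h2.1.symm) h3 ?_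
      exact fun h4 => h2.2.2 (mt_inj h γ h4.symm)
    · left
      intro v w hv hw h1
      rw [FM_ch he] at hv hw
      rw [FM_lt] at h1 ⊢
      have h2 := hcore hv.2.1 hw.2.1 h1
      have h3 := (hq γ h2.1 h2.2.1).2 (by rw [← hv.2.2]; exact hg)
      refine hmc (T0_act h γ hv.2.1) (T0_act h γ hw.2.1) (ty_act_eq h γ h2.1) h3 ?_
      exact fun h4 => h2.2.2 (mt_inj h γ h4)
  · intro γ u v hu hv h1
    rw [FM_K0] at hu hv
    rw [FM_lt] at h1 ⊢
    obtain ⟨-, h2, h3⟩ := hout hu h1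
    refine hmo (fun h4 => hu ((T0_act_iff h γ p u).1 h4))
      (fun h4 => hv ((T0_act_iff h γ p v).1 h4)) ?_ fun h4 => h3 (mt_inj h γ h4)
    show x.1 p (x.2.1 γ u) (x.2.1 γ v) = true
    rw [mt_root h]
    exact out_seg h γ⁻¹ h2 hu
  · intro t v ht hv h1
    rw [FM_K0] at ht hv
    rw [FM_lt] at h1
    obtain ⟨g, hg, -⟩ := hmix ht hv h1
    exact ⟨g, hgg.2 hg⟩
  · intro γ g v h1
    exact hgg.2 (gt_act h γ (hgg.1 h1))

end mt

end Pool.Agent.Y560.TH
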