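import Pool.Agent.Y560.TH.MedB

/-!
Project TH: median trees with a group action. Decoding.
-/

set_option autoImplicit false

namespace Pool.Agent.Y560.TH

open Pool.Agent.H566P (XG Isom)

variable {Γ : Type}

/-- the order of the core -/
def ltc [Group Γ] (e : ℕ → Lbl Γ) (y : XG Γ) (u v : ℕ) : Prop :=
  u = v ∨ (∃ i, y.2.2 (2 * i + 1) u = true ∧ y.2.2 (2 * i + 1) v = true ∧ y.1 u v = true) ∨
    ∃ i j, y.2.2 (2 * i + 1) u = true ∧ y.2.2 (2 * j + 1) v = true ∧
      (e i).1 ≠ (e j).1 ∧ Tle (e i).1 (e j).1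

/-- below an end -/
def Wij [Group Γ] (e : ℕ → Lbl Γ) (i j : ℕ) : Prop :=
  ∃ γ δ, (e i).1 (1, γ) = true ∧ (e i).1 (1, δ) = true ∧ (e j).2 (γ, δ) = true

/-- the rooted order -/
def leD [Group Γ] (e : ℕ → Lbl Γ) (y : XG Γ) (u v : ℕ) : Prop :=
  (K0 y u ∧ K0 y v ∧ ltc e y u v) ∨
  (¬ K0 y u ∧ ¬ K0 y v ∧ (u = v ∨ y.1 u v = true)) ∨
  (K0 y u ∧ ¬ K0 y v ∧ ((∃ i j, y.2.2 (2 * i + 1) u = true ∧ y.2.2 (2 * j + 1) v = true ∧
    Wij e i j) ∨ ∃ g, gate y g v ∧ ltc e y u g))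

open Classical in
/-- decoding -/
noncomputable def DM [Group Γ] (e : ℕ → Lbl Γ) (y : XG Γ) : XC Γ :=
  (fun a b c => decide ((leD e y b a ∨ leD e y b c) ∧ ∀ z, leD e y z a → leD e y z c →
    leD e y z b), y.2.1, fun i u => y.2.2 (2 * i + 4) u)

section mt

variable [Group Γ] {x : XC Γ} {p : ℕ} {e : ℕ → Lbl Γ}

theorem ltc_FM (h : MT x) (he : ∀ u, ∃ i, lab x p u = e i) {u v : ℕ} (hu : T0 x p u)
    (hv : T0 x p v) : ltc e (FM e p x) u v ↔ le x p u v := by
  unfold ltc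
  simp only [FM_lab, FM_lt]
  constructor
  · rintro (h1 | ⟨i, h1, h2, h3⟩ | ⟨i, j, h1, h2, h3, h4⟩)
    · rw [h1]
      exact mt_rr h _ _
    · rcases h3 with h3 | h3 | h3
      · exact h3.2.2.2.1
      · exact absurd hu h3.1
      · exact absurd hv h3.2.1
    · rw [← h1, ← h2] at h3 h4
      exact (le_iff_tle h hv h3).2 h4
  · intro h1
    by_cases h2 : u = v
    · exact Or.inl h2
    right
    obtain ⟨i, hi⟩ := he u
    obtain ⟨j, hj⟩ := he v
    by_cases h3 : ty x p u = ty x p v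
    · left
      refine ⟨i, hi, ?_, Or.inl ⟨hu, hv, h3, h1, h2⟩⟩
      rw [← hi]
      exact ((lab_core hu hv).2 h3).symm
    · right
      refine ⟨i, j, hi, hj, ?_, ?_⟩
      · rw [← hi, ← hj]
        exact h3
      · rw [← hi, ← hj]
        exact (le_iff_tle h hv h3).1 h1

theorem gate_FM (h : MT x) {g v : ℕ} :
    gate (FM e p x) g v ↔ gt x p g v := by
  constructor
  · rintro ⟨h1, h2, h3, h4⟩
    rw [FM_K0] at h1 h2
    rw [FM_lt] at h3
    rcases h3 with h3 | h3 | ⟨-, -, g', hg', h5⟩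
    · exact absurd h3.2.1 h2
    · exact absurd h1 h3.1
    · rcases h5 with rfl | h5
      · exact hg'
      · have h6 := h4 g' (FM_K0.2 hg'.1) (FM_lt.2 (Or.inr (Or.inr ⟨hg'.1, h2, g', hg',
          Or.inl rfl⟩)))
        rcases h6 with rfl | h6
        · exact hg'
        · rw [FM_lt] at h6
          rcases h6 with h6 | h6 | h6
          · exact absurd (h.anti _ _ _ h5.2.1 h6.2.2.2.1) h5.2.2
          · exact absurd hg'.1 h6.1
          · exact absurd h1 h6.2.1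
  · intro h1
    refine ⟨FM_K0.2 h1.1, fun h2 => h1.2.1 (FM_K0.1 h2),
      FM_lt.2 (Or.inr (Or.inr ⟨h1.1, h1.2.1, g, h1, Or.inl rfl⟩)), fun t ht h2 => ?_⟩
    rw [FM_K0] at ht
    rw [FM_lt] at h2 ⊢
    rcases h2 with h2 | h2 | ⟨-, -, g', hg', h3⟩
    · exact absurd h2.2.1 h1.2.1
    · exact absurd ht h2.1
    · rw [gt_uniq h h1 hg']
      rcases h3 with h3 | ⟨h3, h4, h5⟩
      · exact Or.inl h3
      · exact Or.inr (Or.inl ⟨ht, hg'.1, h3, h4, h5⟩)

theorem leD_FM (h : MT x) (he : ∀ u, ∃ i, lab x p u = e i) (u v : ℕ) :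
    leD e (FM e p x) u v ↔ le x p u v := by
  unfold leD
  simp only [FM_K0, FM_lab, gate_FM h]
  by_cases hu : T0 x p u
  · by_cases hv : T0 x p v
    · constructor
      · rintro (h1 | h1 | h1)
        · exact (ltc_FM h he hu hv).1 h1.2.2
        · exact absurd hu h1.1
        · exact absurd hv h1.2.1
      · exact fun h1 => Or.inl ⟨hu, hv, (ltc_FM h he hu hv).2 h1⟩
    · constructor
      · rintro (h1 | h1 | ⟨-, -, h1⟩)
        · exact absurd h1.2.1 hv
        · exact absurd hu h1.1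
        · rcases h1 with ⟨i, j, h1, h2, γ, δ, h3, h4, h5⟩ | ⟨g, hg, h1⟩
          · rw [← h1] at h3 h4
            rw [← h2] at h5
            exact le_of_wt h h3 h4 h5
          · exact mt_tr h hg.2.2.1 ((ltc_FM h he hu hg.1).1 h1)
      · intro h1
        right; right
        refine ⟨hu, hv, ?_⟩
        by_cases hg : ∃ g, gt x p g v
        · obtain ⟨g, hg⟩ := hg
          exact Or.inr ⟨g, hg, (ltc_FM h he hu hg.1).2 (hg.2.2.2 u hu h1)⟩
        · left
          obtain ⟨γ, δ, h3, h4, h5⟩ := wt_of h hu hv h1 hg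
          obtain ⟨i, hi⟩ := he u
          obtain ⟨j, hj⟩ := he v
          refine ⟨i, j, hi, hj, γ, δ, ?_, ?_, ?_⟩
          · rw [← hi]
            exact h3
          · rw [← hi]
            exact h4
          · rw [← hj]
            exact h5
  · constructor
    · rintro (h1 | ⟨-, hv, h1⟩ | h1)
      · exact absurd h1.1 hu
      · rcases h1 with h1 | h1
        · rw [h1]
          exact mt_rr h _ _
        · rw [FM_lt] at h1
          rcases h1 with h1 | h1 | h1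
          · exact absurd h1.1 hu
          · exact h1.2.2.1
          · exact absurd h1.1 hu
      · exact absurd h1.1 hu
    · intro h1
      have hv : ¬ T0 x p v := fun h2 => hu (T0_down h h1 h2)
      right; left
      refine ⟨hu, hv, ?_⟩
      by_cases h2 : u = v
      · exact Or.inl h2
      · exact Or.inr (FM_lt.2 (Or.inr (Or.inl ⟨hu, hv, h1, h2⟩)))

theorem DM_FM (h : MT x) (he : ∀ u, ∃ i, lab x p u = e i) : DM e (FM e p x) = x := by
  classical
  refine Prod.ext ?_ (Prod.ext rfl ?_)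
  · funext a b c
    rw [Bool.eq_iff_iff]
    refine decide_eq_true_iff.trans ?_
    simp only [leD_FM h he]
    exact (mt_int h p a b c).symm
  · funext i u
    rw [Bool.eq_iff_iff]
    exact FM_pr

end mt

/-! ### Relabelling -/

section iso

/-- the structure for which `σ` is an isomorphism onto `x` -/
def relC (σ : Equiv.Perm ℕ) (x : XC Γ) : XC Γ :=
  (fun a b c => x.1 (σ a) (σ b) (σ c), fun γ m => σ.symm (x.2.1 γ (σ m)),
    fun i m => x.2.2 i (σ m))

theorem isoC_eq {σ : Equiv.Perm ℕ} {x y : XC Γ} (h : IsoC σ x y) : x = relC σ y := by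
  obtain ⟨h1, h2, h3⟩ := h
  refine Prod.ext ?_ (Prod.ext ?_ ?_)
  · funext a b c
    exact (h1 a b c).symm
  · funext γ m
    show x.2.1 γ m = σ.symm (y.2.1 γ (σ m))
    rw [h2, σ.symm_apply_apply]
  · funext i m
    exact (h3 i m).symm

variable {x : XC Γ} {σ : Equiv.Perm ℕ}

theorem T0_rel (x : XC Γ) (σ : Equiv.Perm ℕ) (p u : ℕ) :
    T0 (relC σ x) p u ↔ T0 x (σ p) (σ u) := by
  unfold T0 relC
  simp only [σ.apply_symm_apply]

theorem ty_rel (x : XC Γ) (σ : Equiv.Perm ℕ) (p u : ℕ) :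
    ty (relC σ x) p u = ty x (σ p) (σ u) := by
  unfold ty relC
  simp only [σ.apply_symm_apply]

theorem gt_rel (x : XC Γ) (σ : Equiv.Perm ℕ) (p g v : ℕ) :
    gt (relC σ x) p g v ↔ gt x (σ p) (σ g) (σ v) := by
  unfold gt
  simp only [T0_rel]
  refine and_congr_right fun _ => and_congr_right fun _ => and_congr Iff.rfl ?_
  constructor
  · intro h1 t ht h2
    obtain ⟨s, rfl⟩ := σ.surjective t
    exact h1 s ht h2
  · intro h1 t ht h2
    exact h1 _ ht h2

theorem wt_rel (x : XC Γ) (σ : Equiv.Perm ℕ) (p u : ℕ) :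
    wt (relC σ x) p u = wt x (σ p) (σ u) := by
  classical
  funext q
  unfold wt
  rw [decide_eq_decide, T0_rel]
  refine and_congr_right fun _ => ?_
  constructor
  · rintro ⟨m, m1, m2, m3, m4⟩
    refine ⟨σ m, ?_, ?_, ?_, m4⟩
    · simpa [relC] using m1
    · simpa [relC] using m2
    · simpa [relC] using m3
  · rintro ⟨m, m1, m2, m3, m4⟩
    obtain ⟨s, rfl⟩ := σ.surjective m
    refine ⟨s, ?_, ?_, ?_, m4⟩
    · simpa [relC] using m1
    · simpa [relC] using m2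
    · simpa [relC] using m3

theorem lab_rel (x : XC Γ) (σ : Equiv.Perm ℕ) (p u : ℕ) :
    lab (relC σ x) p u = lab x (σ p) (σ u) := by
  unfold lab
  rw [ty_rel, wt_rel]

theorem lm_rel (x : XC Γ) (σ : Equiv.Perm ℕ) (p u v : ℕ) :
    lm (relC σ x) p u v ↔ lm x (σ p) (σ u) (σ v) := by
  unfold lm
  simp only [T0_rel, ty_rel, gt_rel, σ.injective.ne_iff]
  refine or_congr Iff.rfl (or_congr Iff.rfl (and_congr_right fun _ => and_congr_right fun _ => ?_))
  constructor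
  · rintro ⟨g, h1, h2⟩
    refine ⟨σ g, h1, ?_⟩
    rcases h2 with rfl | ⟨h2, h3, h4⟩
    · exact Or.inl rfl
    · exact Or.inr ⟨h2, h3, fun h5 => h4 (σ.injective h5)⟩
  · rintro ⟨g, h1, h2⟩
    obtain ⟨s, rfl⟩ := σ.surjective g
    refine ⟨s, h1, ?_⟩
    rcases h2 with h2 | ⟨h2, h3, h4⟩
    · exact Or.inl (σ.injective h2)
    · exact Or.inr ⟨h2, h3, fun h5 => h4 (by rw [h5])⟩

theorem FM_rel (e : ℕ → Lbl Γ) (x : XC Γ) (σ : Equiv.Perm ℕ) (p : ℕ) :
    FM e p (relC σ x) = rel σ (FM e (σ p) x) := by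
  classical
  refine Prod.ext ?_ (Prod.ext rfl ?_)
  · funext u v
    exact decide_eq_decide.2 (lm_rel x σ p u v)
  · funext n u
    refine decide_eq_decide.2 ?_
    unfold pm
    rw [T0_rel, lab_rel, σ.injective.eq_iff]
    rfl

theorem ltc_rel [Group Γ] (e : ℕ → Lbl Γ) (y : XG Γ) (σ : Equiv.Perm ℕ) (u v : ℕ) :
    ltc e (rel σ y) u v ↔ ltc e y (σ u) (σ v) := by
  unfold ltc
  rw [σ.injective.eq_iff]
  rfl

theorem gate_rel (y : XG Γ) (σ : Equiv.Perm ℕ) (g v : ℕ) :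
    gate (rel σ y) g v ↔ gate y (σ g) (σ v) := by
  unfold gate
  refine and_congr Iff.rfl (and_congr Iff.rfl (and_congr Iff.rfl ?_))
  constructor
  · intro h1 t ht h2
    obtain ⟨s, rfl⟩ := σ.surjective t
    rw [σ.injective.eq_iff]
    exact h1 s ht h2
  · intro h1 t ht h2
    have h3 := h1 (σ t) ht h2
    rwa [σ.injective.eq_iff] at h3

theorem leD_rel [Group Γ] (e : ℕ → Lbl Γ) (y : XG Γ) (σ : Equiv.Perm ℕ) (u v : ℕ) :
    leD e (rel σ y) u v ↔ leD e y (σ u) (σ v) := by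
  unfold leD
  simp only [ltc_rel, gate_rel, σ.injective.eq_iff]
  refine or_congr Iff.rfl (or_congr Iff.rfl (and_congr Iff.rfl (and_congr Iff.rfl
    (or_congr Iff.rfl ?_))))
  constructor
  · rintro ⟨g, h1, h2⟩
    exact ⟨σ g, h1, h2⟩
  · rintro ⟨g, h1, h2⟩
    obtain ⟨s, rfl⟩ := σ.surjective g
    exact ⟨s, h1, h2⟩

theorem DM_rel [Group Γ] (e : ℕ → Lbl Γ) (y : XG Γ) (σ : Equiv.Perm ℕ) :
    DM e (rel σ y) = relC σ (DM e y) := by
  classical
  refine Prod.ext ?_ (Prod.ext rfl rfl)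
  funext a b c
  refine decide_eq_decide.2 ?_
  simp only [leD_rel]
  refine and_congr Iff.rfl ?_
  constructor
  · intro h1 t h2 h3
    obtain ⟨s, rfl⟩ := σ.surjective t
    exact h1 s h2 h3
  · intro h1 t h2 h3
    exact h1 _ h2 h3

theorem relC_iso (σ : Equiv.Perm ℕ) (x : XC Γ) : IsoC σ (relC σ x) x :=
  ⟨fun _ _ _ => rfl, fun _ _ => (σ.apply_symm_apply _).symm, fun _ _ => rfl⟩

end iso

end Pool.Agent.Y560.TH
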